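import Pool.Agent.V8H86.EarB

/-!
MP_cbfcf7_gt, part P3 (helper86): ears of simple polygons.
-/

set_option autoImplicit false

namespace Pool.Agent.V8H86.Ear

open Pool.Agent.V8H80 Pool.Agent.Helper22.FC Complex

theorem side_lin (a b x y : ℂ) (s t : ℝ) (h : s + t = 1) :
    side a b (s • x + t • y) = s * side a b x + t * side a b y := by
  have hs : s = 1 - t := by linarith
  subst hs
  simp only [side_eq', Complex.add_im, Complex.add_re, Complex.real_smul, Complex.mul_re,
    Complex.mul_im, Complex.ofReal_re, Complex.ofReal_im]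
  ring

theorem side_self1 (a b : ℂ) : side a b a = 0 := by simp only [side_eq']; ring

theorem side_self2 (a b : ℂ) : side a b b = 0 := by simp only [side_eq']; ring

theorem side_swap' (a b x : ℂ) : side b a x = - side a b x := by simp only [side_eq']; ring

theorem hull_nonneg {a b c x : ℂ} (hs : 0 < side a b c)
    (hx : x ∈ convexHull ℝ ({a, b, c} : Set ℂ)) :
    0 ≤ side b c x ∧ 0 ≤ side c a x ∧ 0 ≤ side a b x := by
  have h1 : side b c a = side a b c := side_cyc a b c
  have h2 : side c a b = side a b c := by rw [side_cyc b c a, h1]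
  have key : ∀ u v : ℂ, 0 ≤ side u v a → 0 ≤ side u v b → 0 ≤ side u v c → 0 ≤ side u v x := by
    intro u v ha hb hc
    have hconv : Convex ℝ {z | 0 ≤ side u v z} := by
      intro z hz w hw s t hs' ht hst
      show 0 ≤ side u v _
      rw [side_lin _ _ _ _ _ _ hst]
      have hz' : 0 ≤ side u v z := hz
      have hw' : 0 ≤ side u v w := hw
      positivity
    refine convexHull_min ?_ hconv hx
    rintro z (rfl | rfl | rfl)
    · exact ha
    · exact hb
    · exact hc
  refine ⟨key b c ?_ ?_ ?_, key c a ?_ ?_ ?_, key a b ?_ ?_ ?_⟩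
  · rw [h1]; exact hs.le
  · rw [side_self1]
  · rw [side_self2]
  · rw [side_self2]
  · rw [h2]; exact hs.le
  · rw [side_self1]
  · rw [side_self1]
  · rw [side_self2]
  · exact hs.le

/-- the geometric part: a formal ear of a simple polygon is an ear -/
theorem ear_geo {a b c : ℂ} {M : List ℂ} (hV : SimpleL ([b, c] ++ M ++ [a]))
    (hM : M ≠ []) (hG : Good ([c] ++ M ++ [a])) (hs : 0 < side a b c) :
    (∀ e ∈ cyc ([b, c] ++ M ++ [a]), e ≠ (a, b) → e ≠ (b, c) →
      segment ℝ e.1 e.2 ∩ convexHull ℝ {a, b, c} ⊆ ({a, c} : Set ℂ)) ∧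
    SimpleL ([c] ++ M ++ [a]) := by
  have hpi := Real.pi_pos
  have hs0 : side a b c ≠ 0 := hs.ne'
  have hc1 : cyc ([b, c] ++ M ++ [a]) = (b, c) :: ((c :: M).zip (M ++ [a]) ++ [(a, b)]) := cyc_ear
  have hc2 : cyc ([c] ++ M ++ [a]) = (c :: M).zip (M ++ [a]) ++ [(a, c)] := cyc_ear2
  generalize hP : (c :: M).zip (M ++ [a]) = P at hc1 hc2
  have hnd : ([b, c] ++ M ++ [a]).Nodup := hV.2.1
  have hnd' : ([c] ++ M ++ [a]).Nodup := by
    have : List.Sublist ([c] ++ M ++ [a]) ([b, c] ++ M ++ [a]) := by
      simp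
    exact hnd.sublist this
  have hbn : b ∉ [c] ++ M ++ [a] := by
    have h : (b :: ([c] ++ M ++ [a])).Nodup := by simpa using hnd
    exact (List.nodup_cons.1 h).1
  have hac : a ≠ c := by
    rintro rfl
    simp at hnd'
  have hab : a ≠ b := by
    rintro rfl; exact hbn (by simp)
  have hbc : b ≠ c := by
    rintro rfl; exact hbn (by simp)
  have habV : (a, b) ∈ cyc ([b, c] ++ M ++ [a]) := by rw [hc1]; simp
  have hbcV : (b, c) ∈ cyc ([b, c] ++ M ++ [a]) := by rw [hc1]; simp
  have hacV : (a, c) ∈ cyc ([c] ++ M ++ [a]) := by rw [hc2]; simp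
  have hPV : ∀ e ∈ P, e ∈ cyc ([b, c] ++ M ++ [a]) := by
    intro e he; rw [hc1]; simp [he]
  have hPb : ∀ e ∈ P, e.1 ≠ b ∧ e.2 ≠ b := by
    intro e he
    rw [← hP] at he
    have h1 := List.of_mem_zip he
    constructor
    · rintro rfl; apply hbn; have := h1.1; simp at this ⊢; tauto
    · rintro rfl; apply hbn; have := h1.2; simp at this ⊢; tauto
  have hPne : ∀ e ∈ P, e ≠ (a, b) ∧ e ≠ (b, c) := by
    intro e he
    obtain ⟨h1, h2⟩ := hPb e he
    constructor
    · rintro rfl; exact h2 rfl
    · rintro rfl; exact h1 rfl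
  have hmemP : ∀ e ∈ cyc ([b, c] ++ M ++ [a]), e ≠ (a, b) → e ≠ (b, c) → e ∈ P := by
    intro e he h1 h2
    rw [hc1] at he
    simp only [List.mem_cons, List.mem_append, List.not_mem_nil, or_false] at he
    rcases he with he | he | he
    · exact absurd he h2
    · exact he
    · exact absurd he h1
  have hVV : ∀ v ∈ [c] ++ M ++ [a], v ∈ [b, c] ++ M ++ [a] := by
    intro v hv; simp at hv ⊢; tauto
  -- values of the winding angle
  have hwd : ∀ x, x ∉ segment ℝ a c →
      wnd x ([b, c] ++ M ++ [a]) = wnd x ([c] ++ M ++ [a]) + wnd x [b, c, a] := by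
    intro x hx
    rw [wnd3]
    simp only [wnd, hc1, hc2]
    simp only [List.map_cons, List.map_append, List.sum_cons, List.sum_append, List.map_nil,
      List.sum_nil]
    have := wndFacts.swap hx
    rw [this]; ring
  obtain ⟨s, hs1, hval, _⟩ := simple_good' hV
  have hup : ∀ x, Gen ([b, c] ++ M ++ [a]) x → 2 * Real.pi ≤ wnd x ([b, c] ++ M ++ [a]) →
      wnd x ([b, c] ++ M ++ [a]) = 2 * Real.pi := by
    intro x hx h
    have hxc := hx.not_curve (by have := hV.1; omega) hnd
    rcases hval x hxc with h1 | h1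
    · rw [h1] at h; linarith
    · rcases hs1 with h2 | h2
      · rw [h1, h2, mul_one]
      · rw [h1, h2] at h; linarith
  have hin1 : ∀ x, Gen ([b, c] ++ M ++ [a]) x → x ∈ tri a b c →
      wnd x ([b, c] ++ M ++ [a]) = 2 * Real.pi := by
    intro x hx hxt
    apply hup x hx
    rw [hwd x (hx.not_seg (by simp) (by simp) hac), (tri_in wndFacts hs0 hxt).1 hs]
    have := good_nonneg hG hnd' x (hx.mono hVV)
    linarith
  obtain ⟨d, hd, hsd, hdw⟩ := good_tri hG hnd' (a, c) hacV
  simp only at hsd hdw
  have hin2 : ∀ x, Gen ([b, c] ++ M ++ [a]) x → x ∈ tri a c d →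
      wnd x ([b, c] ++ M ++ [a]) = 2 * Real.pi := by
    intro x hx hxt
    apply hup x hx
    have h3 : side a c x > 0 := by
      have := hxt.2.2
      rw [lt_div_iff₀ hsd, zero_mul] at this
      exact this
    have h4 : side c a x < 0 := by rw [side_swap' a c x]; linarith
    rw [hwd x (hx.not_seg (by simp) (by simp) hac),
      tri_out wndFacts hs0 (Or.inr (Or.inl (div_neg_of_neg_of_pos h4 hs)))]
    have := hdw x (hx.mono hVV) hxt
    linarith
  -- the first claim
  have hkey : ∀ e ∈ P, segment ℝ e.1 e.2 ∩ convexHull ℝ {a, b, c} ⊆ ({a, c} : Set ℂ) := by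
    rintro e he y ⟨hy1, hy2⟩
    by_contra hyac
    simp only [Set.mem_insert_iff, Set.mem_singleton_iff, not_or] at hyac
    obtain ⟨hya, hyc⟩ := hyac
    have heV := hPV e he
    obtain ⟨n1, n2, n3⟩ := hull_nonneg hs hy2
    have hbar := bary_eq (x := y) hs0
    have hone := bary_one (x := y) hs0
    have q1 : 0 ≤ side b c y / side a b c := div_nonneg n1 hs.le
    have q2 : 0 ≤ side c a y / side a b c := div_nonneg n2 hs.le
    have q3 : 0 ≤ side a b y / side a b c := div_nonneg n3 hs.le
    -- not on the sides `a b`, `b c`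
    have hnab : y ∉ segment ℝ a b := by
      intro h
      have h1 := hV.2.2 e heV (a, b) habV (hPne e he).1 ⟨hy1, h⟩
      have h2 := h1.2
      simp only [Set.mem_insert_iff, Set.mem_singleton_iff] at h2
      rcases h2 with h2 | h2
      · exact hya h2
      · have h3 := h1.1
        simp only [Set.mem_insert_iff, Set.mem_singleton_iff] at h3
        rw [h2] at h3
        rcases h3 with h3 | h3
        · exact (hPb e he).1 h3.symm
        · exact (hPb e he).2 h3.symm
    have hnbc : y ∉ segment ℝ b c := by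
      intro h
      have h1 := hV.2.2 e heV (b, c) hbcV (hPne e he).2 ⟨hy1, h⟩
      have h2 := h1.2
      simp only [Set.mem_insert_iff, Set.mem_singleton_iff] at h2
      rcases h2 with h2 | h2
      · have h3 := h1.1
        simp only [Set.mem_insert_iff, Set.mem_singleton_iff] at h3
        rw [h2] at h3
        rcases h3 with h3 | h3
        · exact (hPb e he).1 h3.symm
        · exact (hPb e he).2 h3.symm
      · exact hyc h2
    have p3 : 0 < side a b y := by
      rcases n3.eq_or_lt with h0 | h0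
      · exfalso
        apply hnab
        rw [← h0, zero_div, add_zero] at hone
        refine seg_of_coord0 q1 q2 hone ?_
        rw [← h0] at hbar
        simpa using hbar
      · exact h0
    have p1 : 0 < side b c y := by
      rcases n1.eq_or_lt with h0 | h0
      · exfalso
        apply hnbc
        rw [← h0, zero_div, zero_add] at hone
        refine seg_of_coord0 q2 q3 hone ?_
        rw [← h0] at hbar
        simpa using hbar
      · exact h0
    rcases n2.eq_or_lt with h0 | h0
    · -- on the side `a c`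
      have hyseg : y = ((side b c y / side a b c : ℝ)) • a + ((side a b y / side a b c : ℝ)) • c := by
        rw [← h0] at hbar
        simpa using hbar
      have hone' : side b c y / side a b c + side a b y / side a b c = 1 := by
        rw [← h0] at hone
        simpa using hone
      have r1 : 0 < side b c y / side a b c := div_pos p1 hs
      have r3 : 0 < side a b y / side a b c := div_pos p3 hs
      have k1 : 0 < side c d y := by
        rw [hyseg, side_lin _ _ _ _ _ _ hone', side_self1, mul_zero, add_zero, side_cyc a c d]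
        positivity
      have k2 : 0 < side d a y := by
        rw [hyseg, side_lin _ _ _ _ _ _ hone', side_self2, mul_zero, zero_add, side_cyc c d a,
          side_cyc a c d]
        positivity
      have hO : IsOpen ({x | 0 < side b c x} ∩ {x | 0 < side a b x} ∩
          ({x | 0 < side c d x} ∩ {x | 0 < side d a x})) :=
        ((isOpen_lt continuous_const (side_cont _ _)).inter
          (isOpen_lt continuous_const (side_cont _ _))).inter
          ((isOpen_lt continuous_const (side_cont _ _)).inter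
          (isOpen_lt continuous_const (side_cont _ _)))
      refine no_const hV (k := 2 * Real.pi) heV hy1 hO ⟨⟨p1, p3⟩, k1, k2⟩ ?_
      rintro x ⟨⟨x1, x2⟩, x3, x4⟩ hx
      have hne : side c a x ≠ 0 := hx c (by simp) a (by simp) hac.symm
      rcases lt_or_gt_of_ne hne with hlt | hgt
      · refine hin2 x hx ⟨div_pos x3 hsd, div_pos x4 hsd, div_pos ?_ hsd⟩
        rw [side_swap' c a x]; linarith
      · exact hin1 x hx ⟨div_pos x1 hs, div_pos hgt hs, div_pos x2 hs⟩
    · -- inside
      have hO : IsOpen ({x | 0 < side b c x} ∩ {x | 0 < side a b x} ∩ {x | 0 < side c a x}) :=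
        ((isOpen_lt continuous_const (side_cont _ _)).inter
          (isOpen_lt continuous_const (side_cont _ _))).inter
          (isOpen_lt continuous_const (side_cont _ _))
      refine no_const hV (k := 2 * Real.pi) heV hy1 hO ⟨⟨p1, p3⟩, h0⟩ ?_
      rintro x ⟨⟨x1, x2⟩, x3⟩ hx
      exact hin1 x hx ⟨div_pos x1 hs, div_pos x3 hs, div_pos x2 hs⟩
  refine ⟨fun e he h1 h2 => hkey e (hmemP e he h1 h2), ?_, hnd', ?_⟩
  · have := List.length_pos_iff.2 hM
    simp only [List.length_append, List.length_cons, List.length_nil]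
    omega
  · -- the new edge
    have hnew : ∀ e ∈ P, segment ℝ e.1 e.2 ∩ segment ℝ a c ⊆ ({e.1, e.2} ∩ {a, c} : Set ℂ) := by
      rintro e he z ⟨hz1, hz2⟩
      have hsub : segment ℝ a c ⊆ convexHull ℝ ({a, b, c} : Set ℂ) :=
        (convex_convexHull ℝ _).segment_subset (subset_convexHull ℝ _ (by simp))
          (subset_convexHull ℝ _ (by simp))
      have hzac := hkey e he ⟨hz1, hsub hz2⟩
      refine ⟨?_, hzac⟩
      rcases hzac with rfl | hzc
      · exact (hV.2.2 e (hPV e he) (z, b) habV (hPne e he).1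
          ⟨hz1, left_mem_segment ℝ _ _⟩).1
      · rw [Set.mem_singleton_iff] at hzc
        subst hzc
        exact (hV.2.2 e (hPV e he) (b, z) hbcV (hPne e he).2
          ⟨hz1, right_mem_segment ℝ _ _⟩).1
    intro e he e' he' hne
    rw [hc2] at he he'
    simp only [List.mem_append, List.mem_cons, List.not_mem_nil, or_false] at he he'
    rcases he with he | he <;> rcases he' with he' | he'
    · exact hV.2.2 e (hPV e he) e' (hPV e' he') hne
    · subst he'
      exact hnew e he
    · subst he
      intro z hz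
      have := hnew e' he' ⟨hz.2, hz.1⟩
      exact ⟨this.2, this.1⟩
    · exact absurd (he.trans he'.symm) hne

theorem t_ear : S_ear := by
  intro p q B hS hG hB
  obtain ⟨B₁, b, B₂, hBb, hG', a, c, ha, hc, hs⟩ :=
    earP hG _ (List.IsRotated.refl _) p q B rfl hB
  refine ⟨B₁, B₂, a, b, c, hBb, ha, hc, hs, ?_⟩
  -- `p B₁ = A₁ a`, `B₂ q = c C₁`
  obtain ⟨A₁, hA₁⟩ : ∃ A₁, p :: B₁ = A₁ ++ [a] := by
    refine ⟨(p :: B₁).dropLast, ?_⟩
    have h1 := List.dropLast_append_getLast (List.cons_ne_nil p B₁)
    rw [List.getLast?_eq_getLast_of_ne_nil (List.cons_ne_nil p B₁)] at ha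
    simp only [Option.some.injEq] at ha
    rw [ha] at h1
    exact h1.symm
  obtain ⟨C₁, hC₁⟩ : ∃ C₁, B₂ ++ [q] = c :: C₁ := by
    obtain ⟨z, C, hz⟩ := List.exists_cons_of_ne_nil (show B₂ ++ [q] ≠ [] by simp)
    rw [hz] at hc
    simp only [List.head?_cons, Option.some.injEq] at hc
    exact ⟨C, by rw [hz, hc]⟩
  have hVeq : [p] ++ B ++ [q] = A₁ ++ [a, b, c] ++ C₁ := by
    have : [p] ++ B ++ [q] = (p :: B₁) ++ [b] ++ (B₂ ++ [q]) := by rw [hBb]; simp
    rw [this, hA₁, hC₁]; simp
  have hVeq' : [p] ++ (B₁ ++ B₂) ++ [q] = A₁ ++ [a, c] ++ C₁ := by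
    have : [p] ++ (B₁ ++ B₂) ++ [q] = (p :: B₁) ++ (B₂ ++ [q]) := by simp
    rw [this, hA₁, hC₁]; simp
  have hM : C₁ ++ A₁ ≠ [] := by
    intro h
    have h1 := congrArg List.length h
    have h2 := congrArg List.length hVeq
    simp only [List.length_append, List.length_cons, List.length_nil] at h1 h2
    omega
  have hr : [b, c] ++ (C₁ ++ A₁) ++ [a] = (A₁ ++ [a, b, c] ++ C₁).rotate (A₁ ++ [a]).length := by
    have : A₁ ++ [a, b, c] ++ C₁ = (A₁ ++ [a]) ++ ([b, c] ++ C₁) := by simp
    rw [this, List.rotate_append_length_eq]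
    simp
  have hr' : [c] ++ (C₁ ++ A₁) ++ [a] = (A₁ ++ [a, c] ++ C₁).rotate (A₁ ++ [a]).length := by
    have : A₁ ++ [a, c] ++ C₁ = (A₁ ++ [a]) ++ ([c] ++ C₁) := by simp
    rw [this, List.rotate_append_length_eq]
    simp
  have hSr : SimpleL ([b, c] ++ (C₁ ++ A₁) ++ [a]) := by
    rw [hr, ← hVeq]; exact hS.rotate _
  have hGr : Good ([c] ++ (C₁ ++ A₁) ++ [a]) := by
    rw [hr', ← hVeq']; exact Good.rot _ _ hG'
  obtain ⟨h1, h2⟩ := ear_geo hSr hM hGr hs
  refine ⟨?_, hG', ?_⟩
  · rw [hVeq']
    have h3 : A₁ ++ [a, c] ++ C₁ = ([c] ++ (C₁ ++ A₁) ++ [a]).rotate ([c] ++ C₁).length := by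
      have : [c] ++ (C₁ ++ A₁) ++ [a] = ([c] ++ C₁) ++ (A₁ ++ [a]) := by simp
      rw [this, List.rotate_append_length_eq]
      simp
    rw [h3]; exact h2.rotate _
  · intro e he hn1 hn2
    refine h1 e ?_ hn1 hn2
    rw [hr, cyc_rotate, List.mem_rotate, ← hVeq]
    exact he

end Pool.Agent.V8H86.Ear
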