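import Pool.Agent.V8H86.GraphA

/-!
MP_cbfcf7_gt, part P2 (helper86): polygonal approximation of the image of a straight-line graph.
-/

set_option autoImplicit false

namespace Pool.Agent.V8H86.Graph

open Pool.Agent.V8H80

open Set Metric Filter Topology Pointwise

theorem preconn_thick {C : Set ℂ} (hC : IsPreconnected C) (τ : ℝ) :
    IsPreconnected (thickening τ C) := by
  rw [← add_ball_zero]
  have : C + ball (0 : ℂ) τ = (fun p : ℂ × ℂ => p.1 + p.2) '' (C ×ˢ ball (0 : ℂ) τ) := by
    rw [← Set.image2_add, ← Set.image_prod]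
  rw [this]
  exact (hC.prod (convex_ball _ _).isPreconnected).image _ (by fun_prop)

/-- two compact sets meeting inside an open set have thickenings meeting inside the open set -/
theorem thick_inter {C C' W : Set ℂ} (hC : IsCompact C) (hC' : IsCompact C') (hW : IsOpen W)
    (h : C ∩ C' ⊆ W) : ∀ᶠ τ in 𝓝[>] (0 : ℝ), thickening τ C ∩ thickening τ C' ⊆ W := by
  have hcc : IsCompact (C ∩ C') := hC.inter_right hC'.isClosed
  obtain ⟨η, hη, hsub⟩ := hcc.exists_thickening_subset_open hW h
  have hW0 : IsOpen (thickening (η / 2) (C ∩ C')) := isOpen_thickening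
  have hCW : IsCompact (C \ thickening (η / 2) (C ∩ C')) := hC.diff hW0
  have hdis : Disjoint (C \ thickening (η / 2) (C ∩ C')) C' := by
    rw [Set.disjoint_left]
    rintro z ⟨hz1, hz2⟩ hz3
    exact hz2 (self_subset_thickening (half_pos hη) _ ⟨hz1, hz3⟩)
  obtain ⟨δ, hδ, hd⟩ := hdis.exists_thickenings hCW hC'.isClosed
  have hm : 0 < min δ (η / 2) := lt_min hδ (half_pos hη)
  filter_upwards [Ioo_mem_nhdsGT hm] with τ hτ
  rintro z ⟨hz1, hz2⟩
  have hτδ : τ ≤ δ := (hτ.2.trans_le (min_le_left _ _)).le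
  have hτη : τ < η / 2 := hτ.2.trans_le (min_le_right _ _)
  obtain ⟨c, hc, hzc⟩ := mem_thickening_iff.1 hz1
  by_cases hcW : c ∈ thickening (η / 2) (C ∩ C')
  · obtain ⟨c', hc', hcc'⟩ := mem_thickening_iff.1 hcW
    refine hsub (mem_thickening_iff.2 ⟨c', hc', ?_⟩)
    calc dist z c' ≤ dist z c + dist c c' := dist_triangle _ _ _
      _ < η := by linarith
  · exfalso
    exact Set.disjoint_left.1 hd (mem_thickening_iff.2 ⟨c, ⟨hc, hcW⟩, hzc.trans_le hτδ⟩)
      (thickening_mono hτδ _ hz2)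

/-- the data of the middle part of an edge -/
theorem middle {U : Set ℂ} (hU : IsOpen U) (hc : IsPreconnected U) {a b : ℂ} {ρ : ℝ}
    (ha : a ∈ U) (hb : b ∈ U) (hρ : 0 < ρ) (hd : Disjoint (closedBall a ρ) (closedBall b ρ)) :
    ∃ (M : Set ℂ) (h h' : ℂ), PA M h h' ∧ M ⊆ U ∧ M ∩ closedBall a ρ = {h} ∧
      M ∩ closedBall b ρ = {h'} ∧ dist h a = ρ ∧ dist h' b = ρ := by
  -- an end point of an arc which is its only point in a closed ball lies on the sphere
  have sph : ∀ (B : Set ℂ) (c x y : ℂ), PA B x y → B ∩ closedBall c ρ = {x} →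
      y ∉ closedBall c ρ → dist x c = ρ := by
    intro B c x y hB hi hy
    have hx : x ∈ B ∩ closedBall c ρ := by rw [hi]; rfl
    by_contra hne
    have hlt : dist x c < ρ := lt_of_le_of_ne hx.2 hne
    have hpc := hB.preconn
    have hsub : B ⊆ ball c ρ ∪ (closedBall c ρ)ᶜ := by
      intro w hw
      by_cases hwc : w ∈ closedBall c ρ
      · left
        have : w ∈ ({x} : Set ℂ) := by rw [← hi]; exact ⟨hw, hwc⟩
        rw [mem_singleton_iff] at this
        rw [this]; exact hlt
      · right; exact hwc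
    obtain ⟨w, hw, hw1, hw2⟩ := hpc _ _ isOpen_ball isClosed_closedBall.isOpen_compl hsub
      ⟨x, hx.1, hlt⟩ ⟨y, hB.right, hy⟩
    exact hw2 (ball_subset_closedBall hw1)
  have haa : a ∈ closedBall a ρ := mem_closedBall_self hρ.le
  have hbb : b ∈ closedBall b ρ := mem_closedBall_self hρ.le
  obtain ⟨B, hBU, hB⟩ := exists_PA hU hc ha hb
  obtain ⟨h, B1, h1, h2, h3, h4⟩ := hB.last (closedBall a ρ) isClosed_closedBall ⟨a, haa, hB.left⟩
  obtain ⟨h', B2, k1, k2, k3, k4⟩ := h3.rev.last (closedBall b ρ) isClosed_closedBall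
    ⟨b, hbb, h3.rev.left⟩
  have e1 : B2 ∩ closedBall a ρ = {h} := by
    apply Subset.antisymm
    · rw [← h4]; exact inter_subset_inter_left _ k2
    · rintro _ rfl
      exact ⟨k3.right, h1⟩
  refine ⟨B2, h, h', k3.rev, k2.trans (h2.trans hBU), e1, k4, ?_, ?_⟩
  · exact sph B1 a h b h3 h4 (fun hb' => Set.disjoint_left.1 hd hb' hbb)
  · exact sph B2 b h' h k3 k4 (fun hh => Set.disjoint_left.1 hd h1 hh)

theorem t_graph : S_graph := by
  classical
  intro f E hE hEE δ hδ
  -- vertices
  set V : Finset ℂ := E.image Prod.fst ∪ E.image Prod.snd with hV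
  have hVl : ∀ e ∈ E, e.1 ∈ V := fun e he =>
    Finset.mem_union_left _ (Finset.mem_image_of_mem _ he)
  have hVr : ∀ e ∈ E, e.2 ∈ V := fun e he =>
    Finset.mem_union_right _ (Finset.mem_image_of_mem _ he)
  have hVend : ∀ e ∈ E, ∀ v : ℂ, v ∈ ({e.1, e.2} : Set ℂ) → v ∈ V := by
    rintro e he v (rfl | hv)
    · exact hVl e he
    · rw [mem_singleton_iff] at hv
      rw [hv]; exact hVr e he
  -- images of the edges
  set C : ℂ × ℂ → Set ℂ := fun e => f '' segment ℝ e.1 e.2 with hCdef
  have hCc : ∀ e, IsCompact (C e) := fun e => (isCompact_seg _ _).image f.continuous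
  have hCp : ∀ e, IsPreconnected (C e) := fun e =>
    (convex_segment _ _).isPreconnected.image _ f.continuous.continuousOn
  have hCend : ∀ e : ℂ × ℂ, ∀ v : ℂ, v ∈ ({e.1, e.2} : Set ℂ) → f v ∈ C e := by
    rintro e v (rfl | hv)
    · exact ⟨_, left_mem_segment ℝ _ _, rfl⟩
    · rw [mem_singleton_iff] at hv
      rw [hv]; exact ⟨_, right_mem_segment ℝ _ _, rfl⟩
  -- a vertex on an edge is an end of the edge
  have hVE : ∀ v ∈ V, ∀ e ∈ E, v ∈ segment ℝ e.1 e.2 → v ∈ ({e.1, e.2} : Set ℂ) := by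
    intro v hv e he hve
    have : ∃ e' ∈ E, v ∈ ({e'.1, e'.2} : Set ℂ) := by
      rw [hV, Finset.mem_union, Finset.mem_image, Finset.mem_image] at hv
      rcases hv with ⟨e', he', h⟩ | ⟨e', he', h⟩
      · exact ⟨e', he', Or.inl h.symm⟩
      · exact ⟨e', he', Or.inr h.symm⟩
    obtain ⟨e', he', hv'⟩ := this
    by_cases hee : e = e'
    · rw [hee]; exact hv'
    · have hv'' : v ∈ segment ℝ e'.1 e'.2 := by
        rcases hv' with h | h
        · rw [h]; exact left_mem_segment ℝ _ _
        · rw [mem_singleton_iff] at h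
          rw [h]; exact right_mem_segment ℝ _ _
      exact (hEE e he e' he' hee ⟨hve, hv''⟩).1
  -- the radius `ρ`
  have hρ1 : ∀ v ∈ V, ∀ v' ∈ V, v ≠ v' →
      ∀ᶠ ρ in 𝓝[>] (0 : ℝ), Disjoint (closedBall (f v) ρ) (closedBall (f v') ρ) := by
    intro v _ v' _ hvv
    have hd : 0 < dist (f v) (f v') / 2 := half_pos (dist_pos.2 fun h => hvv (f.injective h))
    filter_upwards [Ioo_mem_nhdsGT hd] with ρ hρ
    exact closedBall_disjoint_closedBall (by linarith [hρ.2])
  have hρ2 : ∀ v ∈ V, ∀ e ∈ E, v ∉ ({e.1, e.2} : Set ℂ) →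
      ∀ᶠ ρ in 𝓝[>] (0 : ℝ), Disjoint (closedBall (f v) ρ) (C e) := by
    intro v hv e he hve
    have hvC : f v ∉ C e := by
      rintro ⟨w, hw, hfw⟩
      rw [f.injective hfw] at hw
      exact hve (hVE v hv e he hw)
    obtain ⟨ε, hε, hεs⟩ := Metric.isOpen_iff.1 (hCc e).isClosed.isOpen_compl (f v) hvC
    filter_upwards [Ioo_mem_nhdsGT hε] with ρ hρ
    rw [Set.disjoint_left]
    intro z hz hzC
    exact hεs (closedBall_subset_ball hρ.2 hz) hzC
  have hρall : ∀ᶠ ρ in 𝓝[>] (0 : ℝ), (0 < ρ ∧ ρ < δ) ∧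
      (∀ v ∈ V, ∀ v' ∈ V, v ≠ v' → Disjoint (closedBall (f v) ρ) (closedBall (f v') ρ)) ∧
      (∀ v ∈ V, ∀ e ∈ E, v ∉ ({e.1, e.2} : Set ℂ) → Disjoint (closedBall (f v) ρ) (C e)) := by
    refine Filter.Eventually.and (Ioo_mem_nhdsGT hδ) (Filter.Eventually.and ?_ ?_)
    · rw [Filter.eventually_all_finset]
      intro v hv
      rw [Filter.eventually_all_finset]
      intro v' hv'
      by_cases hvv : v = v'
      · exact Filter.Eventually.of_forall fun _ h => absurd hvv h
      · filter_upwards [hρ1 v hv v' hv' hvv] with ρ h _ using h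
    · rw [Filter.eventually_all_finset]
      intro v hv
      rw [Filter.eventually_all_finset]
      intro e he
      by_cases hve : v ∈ ({e.1, e.2} : Set ℂ)
      · exact Filter.Eventually.of_forall fun _ h => absurd hve h
      · filter_upwards [hρ2 v hv e he hve] with ρ h _ using h
  obtain ⟨ρ, ⟨hρ0, hρδ⟩, hρd, hρe⟩ := hρall.exists
  -- the thickness `τ`
  set W : ℂ × ℂ → ℂ × ℂ → Set ℂ := fun e e' =>
    ⋃ v ∈ ({e.1, e.2} ∩ {e'.1, e'.2} : Set ℂ), ball (f v) ρ with hW
  have hτ1 : ∀ e ∈ E, ∀ e' ∈ E, e ≠ e' → ∀ᶠ τ in 𝓝[>] (0 : ℝ),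
      thickening τ (C e) ∩ thickening τ (C e') ⊆ W e e' := by
    intro e he e' he' hee
    refine thick_inter (hCc e) (hCc e') (isOpen_biUnion fun _ _ => isOpen_ball) ?_
    rintro z ⟨⟨u, hu, rfl⟩, ⟨u', hu', huu⟩⟩
    rw [f.injective huu] at hu'
    have := hEE e he e' he' hee ⟨hu, hu'⟩
    exact mem_biUnion this (mem_ball_self hρ0)
  have hτ2 : ∀ v ∈ V, ∀ e ∈ E, v ∉ ({e.1, e.2} : Set ℂ) → ∀ᶠ τ in 𝓝[>] (0 : ℝ),
      Disjoint (closedBall (f v) ρ) (thickening τ (C e)) := by
    intro v hv e he hve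
    have h1 := thick_inter (isCompact_closedBall (f v) ρ) (hCc e) isOpen_empty
      ((hρe v hv e he hve).inter_eq.subset)
    filter_upwards [h1, self_mem_nhdsWithin] with τ hτ hτ0
    rw [Set.disjoint_left]
    intro z hz hz'
    exact hτ ⟨self_subset_thickening hτ0 _ hz, hz'⟩
  have hτall : ∀ᶠ τ in 𝓝[>] (0 : ℝ), (0 < τ ∧ τ < δ) ∧
      (∀ e ∈ E, ∀ e' ∈ E, e ≠ e' → thickening τ (C e) ∩ thickening τ (C e') ⊆ W e e') ∧
      (∀ v ∈ V, ∀ e ∈ E, v ∉ ({e.1, e.2} : Set ℂ) →
        Disjoint (closedBall (f v) ρ) (thickening τ (C e))) := by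
    refine Filter.Eventually.and (Ioo_mem_nhdsGT hδ) (Filter.Eventually.and ?_ ?_)
    · rw [Filter.eventually_all_finset]
      intro e he
      rw [Filter.eventually_all_finset]
      intro e' he'
      by_cases hee : e = e'
      · exact Filter.Eventually.of_forall fun _ h => absurd hee h
      · filter_upwards [hτ1 e he e' he' hee] with τ h _ using h
    · rw [Filter.eventually_all_finset]
      intro v hv
      rw [Filter.eventually_all_finset]
      intro e he
      by_cases hve : v ∈ ({e.1, e.2} : Set ℂ)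
      · exact Filter.Eventually.of_forall fun _ h => absurd hve h
      · filter_upwards [hτ2 v hv e he hve] with τ h _ using h
  obtain ⟨τ, ⟨hτ0, hτδ⟩, hτe, hτv⟩ := hτall.exists
  -- the middle parts
  have hmid : ∀ e : ℂ × ℂ, ∃ (M : Set ℂ) (H : ℂ → ℂ), e ∈ E →
      PA M (H e.1) (H e.2) ∧ M ⊆ thickening τ (C e) ∧
      ∀ v ∈ ({e.1, e.2} : Set ℂ), M ∩ closedBall (f v) ρ = {H v} ∧ dist (H v) (f v) = ρ := by
    intro e
    by_cases he : e ∈ E
    · have hne := hE e he
      obtain ⟨M, h, h', h1, h2, h3, h4, h5, h6⟩ := middle (U := thickening τ (C e))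
        isOpen_thickening (preconn_thick (hCp e) τ)
        (self_subset_thickening hτ0 _ (hCend e e.1 (Or.inl rfl)))
        (self_subset_thickening hτ0 _ (hCend e e.2 (Or.inr rfl))) hρ0
        (hρd e.1 (hVl e he) e.2 (hVr e he) hne)
      refine ⟨M, fun v => if v = e.1 then h else h', fun _ => ⟨?_, h2, ?_⟩⟩
      · simp only [if_true, if_neg hne.symm]; exact h1
      · rintro v (rfl | hv)
        · simp only [if_true]; exact ⟨h3, h5⟩
        · rw [mem_singleton_iff] at hv
          rw [hv]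
          simp only [if_neg hne.symm]; exact ⟨h4, h6⟩
    · exact ⟨∅, id, fun h => absurd h he⟩
  choose M H hM using hmid
  set A : ℂ × ℂ → Set ℂ := fun e =>
    (segment ℝ (f e.1) (H e e.1) ∪ M e) ∪ segment ℝ (H e e.2) (f e.2) with hA
  have hAmem : ∀ e z, z ∈ A e → z ∈ M e ∨ ∃ v ∈ ({e.1, e.2} : Set ℂ),
      z ∈ segment ℝ (f v) (H e v) := by
    rintro e z ((hz | hz) | hz)
    · exact Or.inr ⟨e.1, Or.inl rfl, hz⟩
    · exact Or.inl hz
    · refine Or.inr ⟨e.2, Or.inr rfl, ?_⟩
      rw [segment_symm]; exact hz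
  have hseg : ∀ e ∈ E, ∀ v ∈ ({e.1, e.2} : Set ℂ),
      segment ℝ (f v) (H e v) ⊆ closedBall (f v) ρ := by
    intro e he v hv
    refine (convex_closedBall (f v) ρ).segment_subset (mem_closedBall_self hρ0.le) ?_
    rw [mem_closedBall, ((hM e he).2.2 v hv).2]
  refine ⟨A, ?_, ?_, ?_⟩
  · -- arcs
    intro e he
    obtain ⟨m1, m2, m3⟩ := hM e he
    have hne := hE e he
    have hl := m3 e.1 (Or.inl rfl)
    have hr := m3 e.2 (Or.inr rfl)
    have hdj := hρd e.1 (hVl e he) e.2 (hVr e he) hne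
    have n1 : f e.1 ≠ H e e.1 := by
      intro h
      have := hl.2
      rw [← h, dist_self] at this
      exact hρ0.ne this
    have n2 : H e e.2 ≠ f e.2 := by
      intro h
      have := hr.2
      rw [h, dist_self] at this
      exact hρ0.ne this
    have s2 : segment ℝ (H e e.2) (f e.2) ⊆ closedBall (f e.2) ρ := by
      rw [segment_symm]; exact hseg e he e.2 (Or.inr rfl)
    have i1 : segment ℝ (f e.1) (H e e.1) ∩ M e = {H e e.1} := by
      apply Subset.antisymm
      · rintro z ⟨hz1, hz2⟩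
        rw [← hl.1]; exact ⟨hz2, hseg e he e.1 (Or.inl rfl) hz1⟩
      · rintro _ rfl
        exact ⟨right_mem_segment ℝ _ _, m1.left⟩
    have p1 := PA.cons (f e.1) (H e e.1) (H e e.2) (M e) n1 i1 m1
    have p2 := PA.seg (H e e.2) (f e.2) n2
    have i2 : (segment ℝ (f e.1) (H e e.1) ∪ M e) ∩ segment ℝ (H e e.2) (f e.2)
        = {H e e.2} := by
      apply Subset.antisymm
      · rintro z ⟨hz1 | hz1, hz2⟩
        · exact absurd (s2 hz2) (Set.disjoint_left.1 hdj (hseg e he e.1 (Or.inl rfl) hz1))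
        · rw [← hr.1]; exact ⟨hz1, s2 hz2⟩
      · rintro _ rfl
        exact ⟨Or.inr m1.right, left_mem_segment ℝ _ _⟩
    exact (p1.trans p2 i2).isArc fun h => hne (f.injective h)
  · -- inside the thickening
    intro e he z hz
    obtain ⟨m1, m2, m3⟩ := hM e he
    rcases hAmem e z hz with hz | ⟨v, hv, hz⟩
    · exact thickening_mono hτδ.le _ (m2 hz)
    · have := hseg e he v hv hz
      refine mem_thickening_iff.2 ⟨f v, hCend e v hv, ?_⟩
      exact lt_of_le_of_lt this hρδ
  · -- intersections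
    intro e he e' he' hee
    -- the middle parts are disjoint
    have mm : ∀ z, z ∈ M e → z ∈ M e' → False := by
      intro z hz hz'
      have h1 := hτe e he e' he' hee ⟨(hM e he).2.1 hz, (hM e' he').2.1 hz'⟩
      obtain ⟨v, hv, hzv⟩ := mem_iUnion₂.1 h1
      have h2 := (hM e he).2.2 v hv.1
      have h3 : z ∈ ({H e v} : Set ℂ) := by
        rw [← h2.1]; exact ⟨hz, ball_subset_closedBall hzv⟩
      rw [mem_singleton_iff] at h3
      rw [mem_ball, h3, h2.2] at hzv
      exact lt_irrefl _ hzv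
    -- a radial segment and a middle part are disjoint
    have sm : ∀ e ∈ E, ∀ e' ∈ E, (∀ z, z ∈ M e → z ∈ M e' → False) →
        ∀ v ∈ ({e.1, e.2} : Set ℂ), ∀ z, z ∈ segment ℝ (f v) (H e v) → z ∈ M e' → False := by
      intro e he e' he' hmm v hv z hz hz'
      by_cases hve : v ∈ ({e'.1, e'.2} : Set ℂ)
      · have h2 := (hM e he).2.2 v hv
        have h3 := (hM e' he').2.2 v hve
        have h4 : z ∈ ({H e' v} : Set ℂ) := by
          rw [← h3.1]; exact ⟨hz', hseg e he v hv hz⟩
        rw [mem_singleton_iff] at h4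
        have h5 : dist z (f v) = ρ := by rw [h4]; exact h3.2
        have h6 : z = H e v := by
          rw [segment_eq_image_lineMap] at hz
          obtain ⟨t, ht, rfl⟩ := hz
          rw [dist_lineMap_left, Real.norm_eq_abs, abs_of_nonneg ht.1, dist_comm, h2.2] at h5
          have : t = 1 := by
            have : (t - 1) * ρ = 0 := by linarith
            rcases mul_eq_zero.1 this with h | h
            · linarith
            · exact absurd h hρ0.ne'
          rw [this]; simp
        refine hmm z ?_ hz'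
        rw [h6]
        have : H e v ∈ M e ∩ closedBall (f v) ρ := by rw [h2.1]; rfl
        exact this.1
      · exact Set.disjoint_left.1 (hτv v (hVend e he v hv) e' he' hve) (hseg e he v hv hz)
          ((hM e' he').2.1 hz')
    rintro z ⟨hz, hz'⟩
    rcases hAmem e z hz with hz | ⟨v, hv, hz⟩ <;> rcases hAmem e' z hz' with hz' | ⟨v', hv', hz'⟩
    · exact (mm z hz hz').elim
    · exact (sm e' he' e he (fun z h h' => mm z h' h) v' hv' z hz' hz).elim
    · exact (sm e he e' he' mm v hv z hz hz').elim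
    · have b1 := hseg e he v hv hz
      have b2 := hseg e' he' v' hv' hz'
      have hvv : v = v' := by
        by_contra hvv
        exact Set.disjoint_left.1 (hρd v (hVend e he v hv) v' (hVend e' he' v' hv') hvv) b1 b2
      subst hvv
      have h2 := (hM e he).2.2 v hv
      have h3 := (hM e' he').2.2 v hv'
      refine ⟨v, ⟨hv, hv'⟩, ?_⟩
      -- two different points of the sphere
      rw [segment_eq_image_lineMap] at hz hz'
      obtain ⟨t, ht, rfl⟩ := hz
      obtain ⟨s, hs, hts⟩ := hz'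
      have hd1 : dist (AffineMap.lineMap (f v) (H e v) t : ℂ) (f v) = t * ρ := by
        rw [dist_lineMap_left, Real.norm_eq_abs, abs_of_nonneg ht.1, dist_comm (f v), h2.2]
      have hd2 : dist (AffineMap.lineMap (f v) (H e' v) s : ℂ) (f v) = s * ρ := by
        rw [dist_lineMap_left, Real.norm_eq_abs, abs_of_nonneg hs.1, dist_comm (f v), h3.2]
      rw [hts, hd1] at hd2
      have hst : t = s := mul_right_cancel₀ hρ0.ne' hd2
      subst hst
      by_cases ht0 : t = 0
      · rw [ht0]; simp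
      · exfalso
        have hHH : H e' v = H e v := by
          rw [AffineMap.lineMap_apply, AffineMap.lineMap_apply] at hts
          simp only [vsub_eq_sub, vadd_eq_add, add_left_inj] at hts
          have h7 : (t : ℂ) ≠ 0 := by exact_mod_cast ht0
          have h8 : (t : ℂ) * (H e' v - f v) = t * (H e v - f v) := by
            simpa [Complex.real_smul] using hts
          have := mul_left_cancel₀ h7 h8
          linear_combination this
        have k1 : H e v ∈ M e ∩ closedBall (f v) ρ := by rw [h2.1]; rfl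
        have k2 : H e' v ∈ M e' ∩ closedBall (f v) ρ := by rw [h3.1]; rfl
        rw [hHH] at k2
        exact mm _ k1.1 k2.1

end Pool.Agent.V8H86.Graph
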