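import Pool.Agent.V8H80.Stm3

/-!
MP_cbfcf7_gt, part P6 (helper86): sliding marked points along a segment.
-/

set_option autoImplicit false

open Set Filter Topology

namespace Pool.Agent.V8H86.Slide

open Pool.Agent.V8H80

/-! ### Coordinates along a line -/

/-- coordinate along the line `p q` -/
noncomputable def lx (p q z : ℂ) : ℝ :=
  ((z.re - p.re) * (q.re - p.re) + (z.im - p.im) * (q.im - p.im)) / Complex.normSq (q - p)

/-- coordinate across the line `p q` -/
noncomputable def ly (p q z : ℂ) : ℝ :=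
  ((z.im - p.im) * (q.re - p.re) - (z.re - p.re) * (q.im - p.im)) / Complex.normSq (q - p)

section

variable {p q : ℂ}

lemma ns_ne (h : p ≠ q) :
    (q.re - p.re) * (q.re - p.re) + (q.im - p.im) * (q.im - p.im) ≠ 0 := by
  have h1 := (Complex.normSq_pos.2 (sub_ne_zero.2 h.symm)).ne'
  rwa [Complex.normSq_apply, Complex.sub_re, Complex.sub_im] at h1

lemma l_rep (h : p ≠ q) (z : ℂ) :
    z = p + (lx p q z : ℂ) * (q - p) + (ly p q z : ℂ) * (Complex.I * (q - p)) := by
  have h1 := ns_ne h
  unfold lx ly
  rw [Complex.normSq_apply, Complex.sub_re, Complex.sub_im]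
  apply Complex.ext
  · simp only [Complex.add_re, Complex.mul_re, Complex.ofReal_re, Complex.ofReal_im,
      Complex.sub_re, Complex.sub_im, Complex.I_re, Complex.I_im, zero_mul, sub_zero, one_mul,
      zero_sub, zero_add, Complex.mul_im]
    rw [div_mul_eq_mul_div, div_mul_eq_mul_div, add_assoc, ← add_div, ← sub_eq_iff_eq_add',
      eq_div_iff h1]
    ring
  · simp only [Complex.add_im, Complex.mul_re, Complex.ofReal_re, Complex.ofReal_im,
      Complex.sub_re, Complex.sub_im, Complex.I_re, Complex.I_im, zero_mul, one_mul,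
      add_zero, zero_add, Complex.mul_im]
    rw [div_mul_eq_mul_div, div_mul_eq_mul_div, add_assoc, ← add_div, ← sub_eq_iff_eq_add',
      eq_div_iff h1]
    ring

lemma lx_shift (h : p ≠ q) (z : ℂ) (s : ℝ) : lx p q (z + (s : ℂ) * (q - p)) = lx p q z + s := by
  have h1 := ns_ne h
  unfold lx
  rw [Complex.normSq_apply, Complex.sub_re, Complex.sub_im]
  simp only [Complex.add_re, Complex.mul_re, Complex.ofReal_re, Complex.ofReal_im,
      Complex.sub_re, Complex.sub_im, zero_mul, sub_zero, Complex.mul_im, Complex.add_im, add_zero]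
  rw [div_add' _ _ _ h1]
  congr 1
  ring

lemma ly_shift (z : ℂ) (s : ℝ) : ly p q (z + (s : ℂ) * (q - p)) = ly p q z := by
  unfold ly
  simp only [Complex.add_re, Complex.mul_re, Complex.ofReal_re, Complex.ofReal_im,
      Complex.sub_re, Complex.sub_im, zero_mul, sub_zero, Complex.mul_im, Complex.add_im, add_zero]
  congr 1
  ring

lemma lx_p : lx p q p = 0 := by simp [lx]

lemma ly_p : ly p q p = 0 := by simp [ly]

lemma lx_af (p q : ℂ) : IsAf (lx p q) := by
  refine ⟨-(p.re * (q.re - p.re) + p.im * (q.im - p.im)) / Complex.normSq (q - p),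
    (q.re - p.re) / Complex.normSq (q - p), (q.im - p.im) / Complex.normSq (q - p), fun z => ?_⟩
  unfold lx
  ring

lemma ly_af (p q : ℂ) : IsAf (ly p q) := by
  refine ⟨-(p.im * (q.re - p.re) - p.re * (q.im - p.im)) / Complex.normSq (q - p),
    -(q.im - p.im) / Complex.normSq (q - p), (q.re - p.re) / Complex.normSq (q - p), fun z => ?_⟩
  unfold ly
  ring

lemma seg_coord' (h : p ≠ q) {z : ℂ} (hz : z ∈ segment ℝ p q) :
    0 ≤ lx p q z ∧ lx p q z ≤ 1 ∧ z = p + (lx p q z : ℂ) * (q - p) := by
  rw [segment_eq_image_mul] at hz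
  obtain ⟨t, ht, rfl⟩ := hz
  have : lx p q (p + (t : ℂ) * (q - p)) = t := by rw [lx_shift h, lx_p, zero_add]
  rw [this]
  exact ⟨ht.1, ht.2, rfl⟩

lemma mem_seg (t : ℝ) (h0 : 0 ≤ t) (h1 : t ≤ 1) : p + (t : ℂ) * (q - p) ∈ segment ℝ p q := by
  rw [segment_eq_image_mul]
  exact ⟨t, ⟨h0, h1⟩, rfl⟩

/-- a connected subset of a segment contains the segments between its points -/
lemma seg_sub (h : p ≠ q) {S : Set ℂ} (hS : S ⊆ segment ℝ p q) (hc : IsPreconnected S)
    {u v : ℂ} (hu : u ∈ S) (hv : v ∈ S) : segment ℝ u v ⊆ S := by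
  intro w hw
  have hcont : Continuous (lx p q) := (lx_af p q).cont
  have hpc : IsPreconnected (lx p q '' S) := hc.image _ hcont.continuousOn
  have hoc := isPreconnected_iff_ordConnected.1 hpc
  have hw' : lx p q w ∈ segment ℝ (lx p q u) (lx p q v) := by
    obtain ⟨α, β, γ, haf⟩ := lx_af p q
    obtain ⟨s, t, hs, ht, hst, rfl⟩ := hw
    refine ⟨s, t, hs, ht, hst, ?_⟩
    rw [haf, haf, haf]
    simp only [smul_eq_mul, Complex.add_re, Complex.add_im, Complex.real_smul, Complex.mul_re,
      Complex.mul_im, Complex.ofReal_re, Complex.ofReal_im, zero_mul, sub_zero, add_zero]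
    have : s = 1 - t := by linarith
    subst this
    ring
  rw [segment_eq_uIcc] at hw'
  obtain ⟨w', hw'S, he⟩ := hoc.uIcc_subset (mem_image_of_mem _ hu) (mem_image_of_mem _ hv) hw'
  have hwseg : w ∈ segment ℝ p q := (convex_segment p q).segment_subset (hS hu) (hS hv) hw
  have e1 := (seg_coord' h (hS hw'S)).2.2
  have e2 := (seg_coord' h hwseg).2.2
  rw [he, ← e2] at e1
  rw [← e1]
  exact hw'S

lemma seg_union (h : p ≠ q) {s : ℂ} (hs : s ∈ segment ℝ p q) :
    segment ℝ p q = segment ℝ p s ∪ segment ℝ s q := by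
  have hsub : segment ℝ p s ∪ segment ℝ s q ⊆ segment ℝ p q :=
    union_subset ((convex_segment p q).segment_subset (left_mem_segment ℝ _ _) hs)
      ((convex_segment p q).segment_subset hs (right_mem_segment ℝ _ _))
  refine Subset.antisymm ?_ hsub
  refine seg_sub h hsub ?_ (Or.inl (left_mem_segment ℝ _ _)) (Or.inr (right_mem_segment ℝ _ _))
  exact IsPreconnected.union s (right_mem_segment ℝ _ _) (left_mem_segment ℝ _ _)
    (convex_segment _ _).isPreconnected (convex_segment _ _).isPreconnected

/-- two connected sets covering a segment -/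
lemma split (h : p ≠ q) {s : ℂ} {X Y : Set ℂ} (hX : IsPreconnected X) (hY : IsPreconnected Y)
    (hXs : X ⊆ segment ℝ p q) (hYs : Y ⊆ segment ℝ p q) (h1 : p ∈ X) (h2 : s ∈ X) (h3 : s ∈ Y)
    (h4 : q ∈ Y) (hXY : ∀ z, z ∈ X → z ∈ Y → z = s) :
    X = segment ℝ p s ∧ Y = segment ℝ s q := by
  have a1 := seg_sub h hXs hX h1 h2
  have a2 := seg_sub h hYs hY h3 h4
  have hu := seg_union h (hXs h2)
  constructor
  · refine Subset.antisymm (fun z hz => ?_) a1
    have := hXs hz
    rw [hu] at this
    rcases this with h5 | h5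
    · exact h5
    · rw [hXY z hz (a2 h5)]
      exact right_mem_segment ℝ _ _
  · refine Subset.antisymm (fun z hz => ?_) a2
    have := hYs hz
    rw [hu] at this
    rcases this with h5 | h5
    · rw [hXY z (a1 h5) hz]
      exact left_mem_segment ℝ _ _
    · exact h5

end

/-! ### Moving one point -/

/-- the four functions of the move -/
noncomputable def mA (p q : ℂ) (α β k1 k2 c h : ℝ) : Fin 4 → ℂ → ℝ :=
  ![fun z => k1 * (lx p q z - α), fun z => k2 * (β - lx p q z),
    fun z => c * (1 - ly p q z / h), fun z => c * (1 + ly p q z / h)]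

lemma move_up {p q : ℂ} (hpq : p ≠ q) {x x' : ℝ} (hx : 0 < x) (hxx : x < x') (hx' : x' < 1)
    {O : Set ℂ} (hO : IsOpen O) (hsub : openSegment ℝ p q ⊆ O) :
    ∃ g : ℂ ≃ₜ ℂ, Nice g ∧ (∀ z, z ∉ O → g z = z) ∧ g p = p ∧ g q = q ∧
      g (p + (x : ℂ) * (q - p)) = p + (x' : ℂ) * (q - p) ∧
      ∀ z ∈ segment ℝ p q, g z ∈ segment ℝ p q := by
  set α : ℝ := x / 2 with hα
  set β : ℝ := (x' + 1) / 2 with hβ
  have hα0 : 0 < α := by positivity
  have hαx : α < x := by rw [hα]; linarith
  have hβx : x' < β := by rw [hβ]; linarith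
  have hβ1 : β < 1 := by rw [hβ]; linarith
  set c : ℝ := x' - x with hc
  have hc0 : 0 < c := by rw [hc]; linarith
  set k1 : ℝ := c / (x - α) with hk1
  set k2 : ℝ := c / (β - x) with hk2
  have hk10 : 0 < k1 := div_pos hc0 (by linarith)
  have hk20 : 0 < k2 := div_pos hc0 (by linarith)
  have hk21 : k2 < 1 := by
    rw [hk2, div_lt_one (by linarith)]; linarith
  have hn : 0 < ‖q - p‖ := norm_pos_iff.2 (sub_ne_zero.2 hpq.symm)
  -- the height
  obtain ⟨h, hh, hreg⟩ : ∃ h : ℝ, 0 < h ∧ ∀ z, α ≤ lx p q z → lx p q z ≤ β → |ly p q z| ≤ h →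
      z ∈ O := by
    have hK : IsCompact ((fun t : ℝ => p + (t : ℂ) * (q - p)) '' Icc α β) :=
      isCompact_Icc.image (by fun_prop)
    have hKO : (fun t : ℝ => p + (t : ℂ) * (q - p)) '' Icc α β ⊆ O := by
      rintro _ ⟨t, ht, rfl⟩
      apply hsub
      refine ⟨1 - t, t, by linarith [ht.2], by linarith [ht.1], by ring, ?_⟩
      simp only [Complex.real_smul]
      push_cast
      ring
    obtain ⟨ε, hε, hεO⟩ := hK.exists_thickening_subset_open hO hKO
    refine ⟨ε / (2 * ‖q - p‖), by positivity, fun z h1 h2 h3 => hεO ?_⟩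
    rw [Metric.mem_thickening_iff]
    refine ⟨_, ⟨lx p q z, ⟨h1, h2⟩, rfl⟩, ?_⟩
    rw [dist_eq_norm]
    have e : z - (p + (lx p q z : ℂ) * (q - p)) = (ly p q z : ℂ) * (Complex.I * (q - p)) := by
      conv_lhs => rw [l_rep hpq z]
      have e1 : lx p q (p + (lx p q z : ℂ) * (q - p) + (ly p q z : ℂ) * (Complex.I * (q - p))) =
          lx p q z := by rw [← l_rep hpq z]
      rw [e1]
      ring
    show ‖z - (p + (lx p q z : ℂ) * (q - p))‖ < ε
    rw [e, norm_mul, norm_mul, Complex.norm_I, one_mul, Complex.norm_real, Real.norm_eq_abs]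
    calc |ly p q z| * ‖q - p‖ ≤ ε / (2 * ‖q - p‖) * ‖q - p‖ := by gcongr
      _ = ε / 2 := by field_simp
      _ < ε := by linarith
  set A := mA p q α β k1 k2 c h with hA
  have hX := lx_af p q
  have hY := ly_af p q
  have hAf : ∀ i, IsAf (A i) := by
    intro i
    fin_cases i
    · exact (hX.sub (IsAf.const α)).smul k1
    · exact ((IsAf.const β).sub hX).smul k2
    · exact ((IsAf.const 1).sub (hY.div h)).smul c
    · exact ((IsAf.const 1).add (hY.div h)).smul c
  -- outside the rectangle
  have hout : ∀ z, ¬ (α ≤ lx p q z ∧ lx p q z ≤ β ∧ |ly p q z| ≤ h) → quad A z = 0 := by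
    intro z hz
    apply quad_zero
    rw [not_and_or, not_and_or, not_le, not_le, not_le] at hz
    rcases hz with h1 | h1 | h1
    · exact ⟨0, mul_nonpos_of_nonneg_of_nonpos hk10.le (by linarith)⟩
    · exact ⟨1, mul_nonpos_of_nonneg_of_nonpos hk20.le (by linarith)⟩
    · rcases lt_abs.1 h1 with h2 | h2
      · refine ⟨2, mul_nonpos_of_nonneg_of_nonpos hc0.le ?_⟩
        have : 1 ≤ ly p q z / h := by rw [le_div_iff₀ hh]; linarith
        linarith
      · refine ⟨3, mul_nonpos_of_nonneg_of_nonpos hc0.le ?_⟩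
        have : ly p q z / h ≤ -1 := by rw [div_le_iff₀ hh]; linarith
        linarith
  obtain ⟨g, hg1, hg2⟩ := nice_quad (w := q - p) (A := A) hAf ![k1, -k2, 0, 0] (by
      intro i z s
      fin_cases i
      · show k1 * (lx p q (z + (s : ℂ) * (q - p)) - α) = k1 * (lx p q z - α) + s * k1
        rw [lx_shift hpq]; ring
      · show k2 * (β - lx p q (z + (s : ℂ) * (q - p))) = k2 * (β - lx p q z) + s * (-k2)
        rw [lx_shift hpq]; ring
      · show c * (1 - ly p q (z + (s : ℂ) * (q - p)) / h) = c * (1 - ly p q z / h) + s * 0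
        rw [ly_shift]; ring
      · show c * (1 + ly p q (z + (s : ℂ) * (q - p)) / h) = c * (1 + ly p q z / h) + s * 0
        rw [ly_shift]; ring) (by
      intro i
      fin_cases i
      · show 0 < 1 + k1
        linarith
      · show 0 < 1 + -k2
        linarith
      · show (0 : ℝ) < 1 + 0
        norm_num
      · show (0 : ℝ) < 1 + 0
        norm_num) (by
      refine HasCompactSupport.intro (K := Metric.closedBall 0 (‖p‖ + ‖q - p‖ + h * ‖q - p‖))
        (isCompact_closedBall _ _) ?_
      intro z hz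
      apply hout
      rintro ⟨h1, h2, h3⟩
      apply hz
      rw [mem_closedBall_zero_iff, l_rep hpq z]
      refine (norm_add_le _ _).trans (add_le_add ((norm_add_le _ _).trans
        (add_le_add le_rfl ?_)) ?_)
      · rw [norm_mul, Complex.norm_real, Real.norm_eq_abs, abs_of_nonneg (by linarith)]
        calc lx p q z * ‖q - p‖ ≤ 1 * ‖q - p‖ := by gcongr; linarith
          _ = _ := one_mul _
      · rw [norm_mul, norm_mul, Complex.norm_I, one_mul, Complex.norm_real, Real.norm_eq_abs]
        gcongr)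
  have hlx : ∀ t : ℝ, lx p q (p + (t : ℂ) * (q - p)) = t := fun t => by
    rw [lx_shift hpq, lx_p, zero_add]
  have hly : ∀ t : ℝ, ly p q (p + (t : ℂ) * (q - p)) = 0 := fun t => by
    rw [ly_shift, ly_p]
  refine ⟨g, hg1, fun z hz => ?_, ?_, ?_, ?_, ?_⟩
  · rw [hg2, hout z (fun h1 => hz (hreg z h1.1 h1.2.1 h1.2.2))]
    simp
  · rw [hg2, hout p (fun h1 => ?_)]
    · simp
    · rw [lx_p] at h1; linarith [h1.1]
  · rw [hg2, hout q (fun h1 => ?_)]
    · simp
    · have := hlx 1
      have e : p + ((1 : ℝ) : ℂ) * (q - p) = q := by push_cast; ring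
      rw [e] at this
      rw [this] at h1; linarith [h1.2.1]
  · rw [hg2]
    have : quad A (p + (x : ℂ) * (q - p)) = c := by
      apply quad_of hc0.le
      · intro i
        fin_cases i
        · show c ≤ k1 * (lx p q (p + (x : ℂ) * (q - p)) - α)
          rw [hlx, hk1, div_mul_cancel₀ _ (by linarith)]
        · show c ≤ k2 * (β - lx p q (p + (x : ℂ) * (q - p)))
          rw [hlx, hk2, div_mul_cancel₀ _ (by linarith)]
        · show c ≤ c * (1 - ly p q (p + (x : ℂ) * (q - p)) / h)
          rw [hly]; simp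
        · show c ≤ c * (1 + ly p q (p + (x : ℂ) * (q - p)) / h)
          rw [hly]; simp
      · refine ⟨2, ?_⟩
        show c * (1 - ly p q (p + (x : ℂ) * (q - p)) / h) = c
        rw [hly]; simp
    rw [this, hc]
    push_cast
    ring
  · intro z hz
    obtain ⟨h0, h1, he⟩ := seg_coord' hpq hz
    rw [hg2, he]
    set t := lx p q z with ht
    have e : p + (t : ℂ) * (q - p) + (quad A (p + (t : ℂ) * (q - p)) : ℂ) * (q - p) =
        p + ((t + quad A (p + (t : ℂ) * (q - p)) : ℝ) : ℂ) * (q - p) := by
      push_cast; ring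
    rw [e]
    refine mem_seg _ (add_nonneg h0 quad_nonneg) ?_
    rcases (quad_nonneg (A := A) (z := p + (t : ℂ) * (q - p))).eq_or_lt with h2 | h2
    · rw [← h2]; linarith
    · have h3 : quad A (p + (t : ℂ) * (q - p)) ≤ k2 * (β - lx p q (p + (t : ℂ) * (q - p))) :=
        quad_le 1 h2
      rw [hlx] at h3
      have h4 : 0 < k2 * (β - t) := lt_of_lt_of_le h2 h3
      have h5 : 0 < β - t := by
        by_contra hneg
        have : k2 * (β - t) ≤ 0 := mul_nonpos_of_nonneg_of_nonpos hk20.le (by linarith)
        linarith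
      have h6 : k2 * (β - t) ≤ 1 * (β - t) := mul_le_mul_of_nonneg_right hk21.le h5.le
      linarith

lemma image_split {p q : ℂ} (hpq : p ≠ q) {s s' : ℂ} (hs : s ∈ segment ℝ p q) {g : ℂ ≃ₜ ℂ}
    (hp : g p = p) (hq : g q = q) (hgs : g s = s') (hseg : ∀ z ∈ segment ℝ p q, g z ∈ segment ℝ p q) :
    g '' segment ℝ p s = segment ℝ p s' ∧ g '' segment ℝ s q = segment ℝ s' q := by
  have hu := seg_union hpq hs
  apply split hpq
  · exact (convex_segment _ _).isPreconnected.image _ g.continuous.continuousOn
  · exact (convex_segment _ _).isPreconnected.image _ g.continuous.continuousOn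
  · rintro _ ⟨z, hz, rfl⟩
    exact hseg z (by rw [hu]; exact Or.inl hz)
  · rintro _ ⟨z, hz, rfl⟩
    exact hseg z (by rw [hu]; exact Or.inr hz)
  · exact ⟨p, left_mem_segment ℝ _ _, hp⟩
  · exact ⟨s, right_mem_segment ℝ _ _, hgs⟩
  · exact ⟨s, left_mem_segment ℝ _ _, hgs⟩
  · exact ⟨q, right_mem_segment ℝ _ _, hq⟩
  · rintro _ ⟨z, hz, rfl⟩ ⟨z', hz', he⟩
    have := g.injective he
    subst this
    -- `z'` in both segments
    by_cases hps : s = p
    · subst hps
      rw [segment_same] at hz
      rw [mem_singleton_iff] at hz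
      rw [hz, hgs]
    obtain ⟨h0, h1, hse⟩ := seg_coord' hpq hs
    have hpos : 0 < lx p q s := by
      rcases h0.eq_or_lt with h | h
      · exfalso
        rw [← h] at hse
        apply hps
        rw [hse]; simp
      · exact h
    have haf := lx_af p q
    obtain ⟨α, β, γ, haf⟩ := haf
    have k1 : lx p q z' ≤ lx p q s := by
      obtain ⟨a, b, ha, hb, hab, rfl⟩ := hz
      have e : lx p q (a • p + b • s) = a * lx p q p + b * lx p q s := by
        rw [haf, haf, haf]
        simp only [Complex.add_re, Complex.add_im, Complex.real_smul, Complex.mul_re,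
          Complex.mul_im, Complex.ofReal_re, Complex.ofReal_im, zero_mul, sub_zero, add_zero]
        have : a = 1 - b := by linarith
        subst this
        ring
      rw [e, lx_p]
      nlinarith
    have k2 : lx p q s ≤ lx p q z' := by
      obtain ⟨a, b, ha, hb, hab, rfl⟩ := hz'
      have e : lx p q (a • s + b • q) = a * lx p q s + b * lx p q q := by
        rw [haf, haf, haf]
        simp only [Complex.add_re, Complex.add_im, Complex.real_smul, Complex.mul_re,
          Complex.mul_im, Complex.ofReal_re, Complex.ofReal_im, zero_mul, sub_zero, add_zero]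
        have : a = 1 - b := by linarith
        subst this
        ring
      have e1 : lx p q q = 1 := by
        have := lx_shift hpq p 1
        rw [lx_p, zero_add] at this
        rw [← this]
        congr 1
        push_cast; ring
      rw [e, e1]
      nlinarith
    have hz'seg : z' ∈ segment ℝ p q := by rw [hu]; exact Or.inl hz
    have e3 := (seg_coord' hpq hz'seg).2.2
    have e4 : lx p q z' = lx p q s := le_antisymm k1 k2
    rw [e4, ← hse] at e3
    rw [e3, hgs]

/-- moving one point of a segment -/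
lemma move {p q : ℂ} (hpq : p ≠ q) {s s' : ℂ} (hs : s ∈ openSegment ℝ p q)
    (hs' : s' ∈ openSegment ℝ p q) {O : Set ℂ} (hO : IsOpen O) (hsub : openSegment ℝ p q ⊆ O) :
    ∃ g : ℂ ≃ₜ ℂ, Nice g ∧ (∀ z, z ∉ O → g z = z) ∧ g p = p ∧ g q = q ∧ g s = s' ∧
      g '' segment ℝ p s = segment ℝ p s' ∧ g '' segment ℝ s q = segment ℝ s' q := by
  have rep : ∀ s ∈ openSegment ℝ p q, ∃ x : ℝ, 0 < x ∧ x < 1 ∧ s = p + (x : ℂ) * (q - p) := by
    rintro s ⟨a, b, ha, hb, hab, rfl⟩
    refine ⟨b, hb, by linarith, ?_⟩
    have : a = 1 - b := by linarith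
    subst this
    simp only [Complex.real_smul]
    push_cast
    ring
  obtain ⟨x, hx0, hx1, hx⟩ := rep s hs
  obtain ⟨x', hx0', hx1', hx'⟩ := rep s' hs'
  have hsseg := openSegment_subset_segment ℝ p q hs
  have hsseg' := openSegment_subset_segment ℝ p q hs'
  rcases lt_trichotomy x x' with hlt | heq | hgt
  · obtain ⟨g, g1, g2, g3, g4, g5, g6⟩ := move_up hpq hx0 hlt hx1' hO hsub
    rw [← hx, ← hx'] at g5
    obtain ⟨g7, g8⟩ := image_split hpq hsseg g3 g4 g5 g6
    exact ⟨g, g1, g2, g3, g4, g5, g7, g8⟩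
  · have : s = s' := by rw [hx, hx', heq]
    subst this
    refine ⟨1, Nice.one, fun _ _ => rfl, rfl, rfl, rfl, ?_, ?_⟩
    · exact image_id _
    · exact image_id _
  · obtain ⟨g, g1, g2, g3, g4, g5, g6⟩ := move_up hpq hx0' hgt hx1 hO hsub
    rw [← hx, ← hx'] at g5
    obtain ⟨g7, g8⟩ := image_split hpq hsseg' g3 g4 g5 g6
    have inv : ∀ z w, g z = w → g⁻¹ w = z := by
      rintro z _ rfl
      exact g.symm_apply_apply z
    refine ⟨g⁻¹, g1.inv, fun z hz => inv _ _ (g2 z hz), inv _ _ g3, inv _ _ g4, inv _ _ g5, ?_, ?_⟩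
    · rw [← g7, ← image_comp]
      have : ⇑g⁻¹ ∘ ⇑g = id := funext fun z => g.symm_apply_apply z
      rw [this, image_id]
    · rw [← g8, ← image_comp]
      have : ⇑g⁻¹ ∘ ⇑g = id := funext fun z => g.symm_apply_apply z
      rw [this, image_id]

/-! ### Chains -/

lemma bU_succ (A : ℕ → Set ℂ) (n : ℕ) : (⋃ i < n + 1, A i) = A 0 ∪ ⋃ i < n, A (i + 1) := by
  ext z
  simp only [mem_iUnion, mem_union, exists_prop]
  constructor
  · rintro ⟨i, hi, hz⟩
    cases i with
    | zero => exact Or.inl hz
    | succ i => exact Or.inr ⟨i, by omega, hz⟩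
  · rintro (hz | ⟨i, hi, hz⟩)
    · exact ⟨0, by omega, hz⟩
    · exact ⟨i + 1, by omega, hz⟩

lemma chain_conn : ∀ (n : ℕ) (A : ℕ → Set ℂ) (r : ℕ → ℂ), 0 < n →
    (∀ i, i < n → Arc (A i) (r i) (r (i + 1))) →
    IsPreconnected (⋃ i < n, A i) ∧ r 0 ∈ (⋃ i < n, A i) ∧ r n ∈ (⋃ i < n, A i) := by
  intro n
  induction n with
  | zero => intro A r h; exact absurd h (lt_irrefl _)
  | succ n ih =>
    intro A r _ hA
    have h0 := hA 0 (by omega)
    rw [bU_succ]
    rcases Nat.eq_zero_or_pos n with hn | hn
    · subst hn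
      simp only [not_lt_zero, iUnion_of_empty, iUnion_empty, union_empty]
      exact ⟨h0.isConnected.isPreconnected, h0.left_mem, h0.right_mem⟩
    · obtain ⟨i1, i2, i3⟩ := ih (fun i => A (i + 1)) (fun i => r (i + 1)) hn
        (fun i hi => hA (i + 1) (by omega))
      refine ⟨?_, Or.inl h0.left_mem, Or.inr i3⟩
      exact IsPreconnected.union (r 1) h0.right_mem i2 h0.isConnected.isPreconnected i1

/-- the first arc of a chain covering a segment -/
lemma chain_first {n : ℕ} (hn : 0 < n) {A : ℕ → Set ℂ} {r : ℕ → ℂ} (h : Chn (n + 1) A r)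
    (hU : (⋃ i < n + 1, A i) = segment ℝ (r 0) (r (n + 1))) :
    r 0 ≠ r (n + 1) ∧ A 0 = segment ℝ (r 0) (r 1) ∧
      (⋃ i < n, A (i + 1)) = segment ℝ (r 1) (r (n + 1)) ∧
      r 1 ∈ openSegment ℝ (r 0) (r (n + 1)) := by
  have h0 := h.1 0 (by omega)
  have hsub : ∀ i, i < n + 1 → A i ⊆ segment ℝ (r 0) (r (n + 1)) := by
    intro i hi z hz
    rw [← hU]
    simp only [mem_iUnion, exists_prop]
    exact ⟨i, hi, hz⟩
  have hne : r 0 ≠ r (n + 1) := by
    intro he
    have h1 := hsub 0 (by omega) h0.right_mem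
    rw [← he, segment_same, mem_singleton_iff] at h1
    exact h0.ne h1.symm
  obtain ⟨c1, c2, c3⟩ := chain_conn n (fun i => A (i + 1)) (fun i => r (i + 1)) hn
    (fun i hi => h.1 (i + 1) (by omega))
  have hY : (⋃ i < n, A (i + 1)) ⊆ segment ℝ (r 0) (r (n + 1)) := by
    intro z hz
    simp only [mem_iUnion, exists_prop] at hz
    obtain ⟨i, hi, hz⟩ := hz
    exact hsub (i + 1) (by omega) hz
  obtain ⟨s1, s2⟩ := split hne (s := r 1) h0.isConnected.isPreconnected c1 (hsub 0 (by omega)) hY
    h0.left_mem h0.right_mem c2 c3 (by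
      intro z hz hz'
      simp only [mem_iUnion, exists_prop] at hz'
      obtain ⟨i, hi, hz'⟩ := hz'
      obtain ⟨e1, e2⟩ := h.2 0 (i + 1) (by omega) (by omega) z hz hz'
      rw [e2, e1])
  refine ⟨hne, s1, s2, ?_⟩
  have h1 := h.1 1 (by omega)
  have hne2 : r (n + 1) ≠ r 1 := by
    intro he
    have h2 : r 2 ∈ ⋃ i < n, A (i + 1) := by
      simp only [mem_iUnion, exists_prop]
      exact ⟨0, hn, h1.right_mem⟩
    rw [s2, he, segment_same, mem_singleton_iff] at h2
    exact h1.ne h2.symm
  exact mem_openSegment_of_ne_left_right h0.ne hne2 (hsub 0 (by omega) h0.right_mem)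

theorem t_slideN : S_slideN := by
  intro n
  induction n with
  | zero => intro A A' r r' h; exact absurd h (lt_irrefl _)
  | succ n ih =>
    intro A A' r r' _ hA hA' h0 hn hU hU' O hO hsub
    rcases Nat.eq_zero_or_pos n with hn0 | hn0
    · subst hn0
      refine ⟨1, Nice.one, fun _ _ => rfl, ?_, ?_⟩
      · intro i hi
        have : i = 0 := by omega
        subst this
        have e : A 0 = A' 0 := by
          have e1 : (⋃ i < 0 + 1, A i) = A 0 := by rw [bU_succ]; simp
          have e2 : (⋃ i < 0 + 1, A' i) = A' 0 := by rw [bU_succ]; simp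
          rw [← e1, ← e2, hU, hU']
        rw [← e]
        exact image_id _
      · intro i hi
        have : i = 0 ∨ i = 1 := by omega
        rcases this with rfl | rfl
        · exact h0
        · exact hn
    · have hU'2 : (⋃ i < n + 1, A' i) = segment ℝ (r' 0) (r' (n + 1)) := by
        rw [hU', h0, hn]
      obtain ⟨k1, k2, k3, k4⟩ := chain_first hn0 hA hU
      obtain ⟨l1, l2, l3, l4⟩ := chain_first hn0 hA' hU'2
      rw [← h0, ← hn] at l4
      rw [← hn] at l3
      rw [← h0] at l2
      obtain ⟨g, g1, g2, g3, g4, g5, g6, g7⟩ := move k1 k4 l4 hO hsub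
      -- the rest
      have hseg' : openSegment ℝ (r' 1) (r (n + 1)) ⊆ O \ segment ℝ (r 0) (r' 1) := by
        have hs1 : r' 1 ∈ segment ℝ (r 0) (r (n + 1)) := openSegment_subset_segment ℝ _ _ l4
        intro z hz
        have hzs : z ∈ segment ℝ (r' 1) (r (n + 1)) := openSegment_subset_segment ℝ _ _ hz
        have hne1 : r' 1 ≠ r (n + 1) := by
          intro he
          rw [he, right_mem_openSegment_iff] at l4
          exact k1 l4
        have hzne : z ≠ r' 1 := by
          intro he
          rw [he, left_mem_openSegment_iff] at hz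
          exact hne1 hz
        have hzne2 : z ≠ r (n + 1) := by
          intro he
          rw [he, right_mem_openSegment_iff] at hz
          exact hne1 hz
        have hnot : z ∉ segment ℝ (r 0) (r' 1) := by
          intro hz2
          have := image_split k1 hs1 (g := 1) (s' := r' 1) rfl rfl rfl (fun z hz => hz)
          have hspl := split k1 (s := r' 1) (X := segment ℝ (r 0) (r' 1))
            (Y := segment ℝ (r' 1) (r (n + 1)))
          -- use coordinates
          obtain ⟨hp0, hp1, hpe⟩ := seg_coord' k1 hs1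
          obtain ⟨α, β, γ, haf⟩ := lx_af (r 0) (r (n + 1))
          have hne0 : r 0 ≠ r' 1 := by
            intro he
            rw [← he, left_mem_openSegment_iff] at l4
            exact k1 l4
          have hpos : 0 < lx (r 0) (r (n + 1)) (r' 1) := by
            rcases hp0.eq_or_lt with h | h
            · exfalso
              rw [← h] at hpe
              apply hne0
              rw [hpe]; simp
            · exact h
          have q1 : lx (r 0) (r (n + 1)) z ≤ lx (r 0) (r (n + 1)) (r' 1) := by
            obtain ⟨a, b, ha, hb, hab, rfl⟩ := hz2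
            have e : lx (r 0) (r (n + 1)) (a • r 0 + b • r' 1) =
                a * lx (r 0) (r (n + 1)) (r 0) + b * lx (r 0) (r (n + 1)) (r' 1) := by
              rw [haf, haf, haf]
              simp only [Complex.add_re, Complex.add_im, Complex.real_smul, Complex.mul_re,
                Complex.mul_im, Complex.ofReal_re, Complex.ofReal_im, zero_mul, sub_zero, add_zero]
              have : a = 1 - b := by linarith
              subst this
              ring
            rw [e, lx_p]
            nlinarith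
          have e1 : lx (r 0) (r (n + 1)) (r (n + 1)) = 1 := by
            have := lx_shift k1 (r 0) 1
            rw [lx_p, zero_add] at this
            rw [← this]
            congr 1
            push_cast; ring
          have q2 : lx (r 0) (r (n + 1)) (r' 1) ≤ lx (r 0) (r (n + 1)) z := by
            obtain ⟨a, b, ha, hb, hab, rfl⟩ := hzs
            have e : lx (r 0) (r (n + 1)) (a • r' 1 + b • r (n + 1)) =
                a * lx (r 0) (r (n + 1)) (r' 1) + b * lx (r 0) (r (n + 1)) (r (n + 1)) := by
              rw [haf, haf, haf]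
              simp only [Complex.add_re, Complex.add_im, Complex.real_smul, Complex.mul_re,
                Complex.mul_im, Complex.ofReal_re, Complex.ofReal_im, zero_mul, sub_zero, add_zero]
              have : a = 1 - b := by linarith
              subst this
              ring
            rw [e, e1]
            nlinarith
          have hzseg : z ∈ segment ℝ (r 0) (r (n + 1)) := by
            rw [seg_union k1 hs1]; exact Or.inl hz2
          have e3 := (seg_coord' k1 hzseg).2.2
          rw [le_antisymm q1 q2, ← hpe] at e3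
          exact hzne e3
        refine ⟨hsub ?_, hnot⟩
        refine mem_openSegment_of_ne_left_right ?_ hzne2.symm ?_
        · rintro rfl
          exact hnot (left_mem_segment ℝ _ _)
        · rw [seg_union k1 hs1]; exact Or.inr hzs
      have hO' : IsOpen (O \ segment ℝ (r 0) (r' 1)) :=
        hO.sdiff (isCompact_segment' _ _).isClosed
      have gn : g (r (n + 1)) = r (n + 1) := g4
      obtain ⟨θ, t1, t2, t3, t4⟩ := ih (fun i => g '' A (i + 1)) (fun i => A' (i + 1))
        (fun i => g (r (i + 1))) (fun i => r' (i + 1)) hn0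
        ⟨fun i hi => g1.poly _ _ _ (hA.1 (i + 1) (by omega)), by
          intro i j hij hj z hz hz'
          obtain ⟨w, hw, rfl⟩ := hz
          obtain ⟨w', hw', he⟩ := hz'
          have := g.injective he
          subst this
          obtain ⟨e1, e2⟩ := hA.2 (i + 1) (j + 1) (by omega) (by omega) w' hw hw'
          refine ⟨by omega, ?_⟩
          show g w' = g (r (j + 1))
          rw [e2]⟩
        ⟨fun i hi => hA'.1 (i + 1) (by omega), by
          intro i j hij hj z hz hz'
          obtain ⟨e1, e2⟩ := hA'.2 (i + 1) (j + 1) (by omega) (by omega) z hz hz'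
          exact ⟨by omega, e2⟩⟩ g5 (by
          show g (r (n + 1)) = r' (n + 1)
          rw [g4, hn]) (by
          show (⋃ i < n, g '' A (i + 1)) = segment ℝ (g (r (0 + 1))) (g (r (n + 1)))
          have e1 : (⋃ i < n, g '' A (i + 1)) = g '' (⋃ i < n, A (i + 1)) := by
            simp only [image_iUnion]
          rw [e1, k3, g7, g4]
          have e2 : g (r (0 + 1)) = r' 1 := g5
          rw [e2]) (by
          show (⋃ i < n, A' (i + 1)) = segment ℝ (g (r (0 + 1))) (g (r (n + 1)))
          have e2 : g (r (0 + 1)) = r' 1 := g5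
          rw [l3, e2, g4]) (O \ segment ℝ (r 0) (r' 1)) hO' (by
          show openSegment ℝ (g (r (0 + 1))) (g (r (n + 1))) ⊆ _
          have e2 : g (r (0 + 1)) = r' 1 := g5
          rw [e2, g4]
          exact hseg')
      have hid : ∀ z ∈ segment ℝ (r 0) (r' 1), θ z = z := fun z hz => t2 z fun h => h.2 hz
      refine ⟨θ * g, t1.mul g1, ?_, ?_, ?_⟩
      · intro z hz
        show θ (g z) = z
        rw [g2 z hz, t2 z fun h => hz h.1]
      · intro i hi
        show (θ ∘ g) '' A i = A' i
        rw [image_comp]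
        cases i with
        | zero =>
          rw [k2, g6, l2]
          have : θ '' segment ℝ (r 0) (r' 1) = id '' segment ℝ (r 0) (r' 1) :=
            image_congr fun z hz => hid z hz
          rw [this, image_id]
        | succ i => exact t3 i (by omega)
      · intro i hi
        show θ (g (r i)) = r' i
        cases i with
        | zero =>
          rw [g3, hid _ (left_mem_segment ℝ _ _)]
          exact h0
        | succ i => exact t4 i (by omega)

end Pool.Agent.V8H86.Slide
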