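import Pool.Agent.V8H80.Stm
import Pool.Agent.V8H80.FCx

/-!
MP_cbfcf7_gt, part P3 (helper86): ears of formal triangulations, generic points.
-/

set_option autoImplicit false

namespace Pool.Agent.V8H86.Ear

open Pool.Agent.V8H80 Pool.Agent.Helper22.FC Complex

/-! ### Formal ears -/

theorem side_cyc (a b c : ℂ) : side b c a = side a b c := by
  simp only [side_eq']; ring

theorem good_rot' {V W : List ℂ} (h : Good V) (hr : W ~r V) : Good W := by
  obtain ⟨n, hn⟩ := hr.symm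
  rw [← hn]
  exact Good.rot V n h

theorem good_len {V : List ℂ} (h : Good V) : 3 ≤ V.length := by
  induction h with
  | tri => simp
  | cut x y E B hE hB h1 h2 ih1 ih2 =>
    simp only [List.length_append, List.length_cons, List.length_nil]
    have := List.length_pos_iff.2 hE
    omega
  | rot V k h ih => simpa using ih

theorem good_three {V : List ℂ} (h : Good V) : ∀ a b c : ℂ, V = [a, b, c] → 0 < side a b c := by
  induction h with
  | tri a b c h =>
    intro a' b' c' he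
    simp only [List.cons.injEq, and_true] at he
    obtain ⟨rfl, rfl, rfl⟩ := he
    exact h
  | cut x y E B hE hB h1 h2 ih1 ih2 =>
    intro a b c he
    have := congrArg List.length he
    simp only [List.length_append, List.length_cons, List.length_nil] at this
    have h3 := List.length_pos_iff.2 hE
    have h4 := List.length_pos_iff.2 hB
    omega
  | rot V k h ih =>
    intro a b c he
    have h1 : V ~r [a, b, c] := ⟨k, he⟩
    obtain ⟨n, hn⟩ := h1.symm
    have hn' : [a, b, c].rotate (n % 3) = V := by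
      rw [← hn]
      exact List.rotate_mod [a, b, c] n
    have hlt : n % 3 < 3 := Nat.mod_lt _ (by norm_num)
    interval_cases h3 : n % 3
    · exact ih a b c hn'.symm
    · have := ih b c a hn'.symm
      rwa [side_cyc] at this
    · have := ih c a b hn'.symm
      rwa [← side_cyc] at this

/-- the two forms of a rotation of `x E y B` -/
theorem rot_cases {x y : ℂ} {E B L : List ℂ} (h : L ~r ([x] ++ E ++ [y] ++ B)) :
    (∃ T₁ T₂, L = T₁ ++ [x] ++ E ++ [y] ++ T₂ ∧ B = T₂ ++ T₁) ∨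
    ∃ T₁ T₂, L = T₁ ++ [y] ++ B ++ [x] ++ T₂ ∧ E = T₂ ++ T₁ := by
  obtain ⟨k, hk⟩ := h.symm
  obtain ⟨A₁, A₂, hV, hL⟩ : ∃ A₁ A₂, [x] ++ E ++ [y] ++ B = A₁ ++ A₂ ∧ L = A₂ ++ A₁ := by
    have hlt : k % ([x] ++ E ++ [y] ++ B).length ≤ ([x] ++ E ++ [y] ++ B).length :=
      (Nat.mod_lt _ (by simp)).le
    refine ⟨([x] ++ E ++ [y] ++ B).take (k % ([x] ++ E ++ [y] ++ B).length),
      ([x] ++ E ++ [y] ++ B).drop (k % ([x] ++ E ++ [y] ++ B).length),
      (List.take_append_drop _ _).symm, ?_⟩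
    rw [← hk, ← List.rotate_mod, List.rotate_eq_drop_append_take hlt]
  have hV' : ([x] ++ E) ++ ([y] ++ B) = A₁ ++ A₂ := by rw [← hV]; simp
  rw [List.append_eq_append_iff] at hV'
  rcases hV' with ⟨c', h1, h2⟩ | ⟨a', h1, h2⟩
  · -- `A₁ = x E c'`
    cases c' with
    | nil =>
      right
      refine ⟨[], E, ?_, by simp⟩
      rw [hL]
      simp only [List.append_nil, List.nil_append] at h1 h2
      rw [h1, ← h2]; simp
    | cons z c =>
      simp only [List.cons_append, List.nil_append, List.cons.injEq] at h2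
      obtain ⟨rfl, h2⟩ := h2
      left
      refine ⟨A₂, c, ?_, h2⟩
      rw [hL, h1]; simp
  · -- `x E = A₁ a'`
    cases A₁ with
    | nil =>
      left
      refine ⟨[], B, ?_, by simp⟩
      rw [hL]
      simp only [List.nil_append] at hV ⊢
      rw [List.append_nil, ← hV]
    | cons z A =>
      simp only [List.cons_append, List.nil_append, List.cons.injEq] at h1
      obtain ⟨rfl, h1⟩ := h1
      right
      refine ⟨a', A, ?_, h1⟩
      rw [hL, h2]; simp

/-- ears of a formal triangulation outside a given base edge -/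
def EarP (V : List ℂ) : Prop := ∀ L, L ~r V → ∀ (p q : ℂ) (B : List ℂ), L = [p] ++ B ++ [q] →
  2 ≤ B.length → ∃ (B₁ : List ℂ) (b : ℂ) (B₂ : List ℂ), B = B₁ ++ [b] ++ B₂ ∧
    Good ([p] ++ (B₁ ++ B₂) ++ [q]) ∧
    ∃ a c : ℂ, (p :: B₁).getLast? = some a ∧ (B₂ ++ [q]).head? = some c ∧ 0 < side a b c

theorem getLast_aux (T : List ℂ) (u : ℂ) (D : List ℂ) :
    (T ++ [u] ++ D).getLast? = (u :: D).getLast? := by
  have : T ++ [u] ++ D = T ++ (u :: D) := by simp
  rw [this, List.getLast?_append_of_ne_nil _ (by simp)]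

theorem head_aux (T : List ℂ) (v : ℂ) (D : List ℂ) :
    (D ++ [v] ++ T).head? = (D ++ [v]).head? := by
  cases D <;> simp

theorem good_glue {u v : ℂ} {D C : List ℂ} (hD : D ≠ []) (hC : C ≠ [])
    (h1 : Good ([u] ++ D ++ [v])) (h2 : Good ([v] ++ C ++ [u])) :
    Good ([u] ++ D ++ [v] ++ C) := by
  refine Good.cut u v D C hD hC (good_rot' h2 ?_) h1
  refine ⟨1, ?_⟩
  simp

/-- cutting off an ear of the part of the polygon on one side of a chord -/
theorem ear_glue {u v : ℂ} {D T₁ T₂ : List ℂ} (hD : D ≠ []) (hT : T₂ ++ T₁ ≠ [])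
    (h1 : Good ([u] ++ D ++ [v])) (h2 : Good ([v] ++ (T₂ ++ T₁) ++ [u]))
    (hE : EarP ([u] ++ D ++ [v])) {p q : ℂ} {B : List ℂ}
    (hL : T₁ ++ [u] ++ D ++ [v] ++ T₂ = [p] ++ B ++ [q]) :
    ∃ (B₁ : List ℂ) (b : ℂ) (B₂ : List ℂ), B = B₁ ++ [b] ++ B₂ ∧
      Good ([p] ++ (B₁ ++ B₂) ++ [q]) ∧
      ∃ a c : ℂ, (p :: B₁).getLast? = some a ∧ (B₂ ++ [q]).head? = some c ∧ 0 < side a b c := by
  obtain ⟨D₁, b, D₂, hDb, hG, a, c, ha, hc, hs⟩ : ∃ (D₁ : List ℂ) (b : ℂ) (D₂ : List ℂ),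
      D = D₁ ++ [b] ++ D₂ ∧ Good (T₁ ++ [u] ++ (D₁ ++ D₂) ++ [v] ++ T₂) ∧
      ∃ a c : ℂ, (u :: D₁).getLast? = some a ∧ (D₂ ++ [v]).head? = some c ∧ 0 < side a b c := by
    rcases Nat.lt_or_ge D.length 2 with hlen | hlen
    · have hlen1 : D.length = 1 := by
        have := List.length_pos_iff.2 hD
        omega
      obtain ⟨b, rfl⟩ := List.length_eq_one_iff.1 hlen1
      refine ⟨[], b, [], by simp, ?_, u, v, by simp, by simp, ?_⟩
      · refine good_rot' h2 ⟨T₁.length + 1, ?_⟩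
        have : T₁ ++ [u] ++ ([] ++ []) ++ [v] ++ T₂ = (T₁ ++ [u]) ++ ([v] ++ T₂) := by simp
        rw [this]
        have hl : T₁.length + 1 = (T₁ ++ [u]).length := by simp
        rw [hl, List.rotate_append_length_eq]
        simp
      · exact good_three h1 u b v (by simp)
    · obtain ⟨D₁, b, D₂, hDb, hG, a, c, ha, hc, hs⟩ :=
        hE _ (List.IsRotated.refl _) u v D rfl hlen
      refine ⟨D₁, b, D₂, hDb, ?_, a, c, ha, hc, hs⟩
      have hne : D₁ ++ D₂ ≠ [] := by
        intro h0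
        have h3 := congrArg List.length hDb
        have h4 := congrArg List.length h0
        simp only [List.length_append, List.length_cons, List.length_nil] at h3 h4
        omega
      have hg := good_glue hne hT hG h2
      refine good_rot' hg ⟨T₁.length, ?_⟩
      have : T₁ ++ [u] ++ (D₁ ++ D₂) ++ [v] ++ T₂ = T₁ ++ ([u] ++ (D₁ ++ D₂) ++ [v] ++ T₂) := by
        simp
      rw [this, List.rotate_append_length_eq]
      simp
  subst hDb
  -- `p B₁ = T₁ u D₁`, `B₂ q = D₂ v T₂`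
  obtain ⟨B₁, hB₁⟩ : ∃ B₁, T₁ ++ [u] ++ D₁ = p :: B₁ := by
    have h0 : T₁ ++ [u] ++ D₁ ≠ [] := by simp
    obtain ⟨z, B₁, hz⟩ := List.exists_cons_of_ne_nil h0
    refine ⟨B₁, ?_⟩
    rw [hz]
    have : (T₁ ++ [u] ++ D₁) ++ ([b] ++ D₂ ++ [v] ++ T₂) = [p] ++ B ++ [q] := by
      rw [← hL]; simp
    rw [hz] at this
    simp only [List.cons_append, List.nil_append, List.cons.injEq] at this
    rw [this.1]
  obtain ⟨B₂, hB₂⟩ : ∃ B₂, D₂ ++ [v] ++ T₂ = B₂ ++ [q] := by
    have h0 : D₂ ++ [v] ++ T₂ ≠ [] := by simp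
    refine ⟨(D₂ ++ [v] ++ T₂).dropLast, ?_⟩
    have h5 : (D₂ ++ [v] ++ T₂).getLast h0 = q := by
      have h6 : ((T₁ ++ [u] ++ D₁ ++ [b]) ++ (D₂ ++ [v] ++ T₂)).getLast (by simp) = q := by
        have : (T₁ ++ [u] ++ D₁ ++ [b]) ++ (D₂ ++ [v] ++ T₂) = [p] ++ B ++ [q] := by
          rw [← hL]; simp
        simp only [this]
        simp
      rw [List.getLast_append_of_ne_nil _ h0] at h6
      exact h6
    conv_lhs => rw [← List.dropLast_append_getLast h0, h5]
  refine ⟨B₁, b, B₂, ?_, ?_, a, c, ?_, ?_, hs⟩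
  · have : [p] ++ (B₁ ++ [b] ++ B₂) ++ [q] = [p] ++ B ++ [q] := by
      rw [← hL]
      have h7 : [p] ++ (B₁ ++ [b] ++ B₂) ++ [q] = (p :: B₁) ++ [b] ++ (B₂ ++ [q]) := by simp
      rw [h7, ← hB₁, ← hB₂]; simp
    have h8 := List.append_cancel_right this
    have h9 := List.append_cancel_left h8
    exact h9.symm
  · have h7 : [p] ++ (B₁ ++ B₂) ++ [q] = (p :: B₁) ++ (B₂ ++ [q]) := by simp
    rw [h7, ← hB₁, ← hB₂]
    have h8 : T₁ ++ [u] ++ D₁ ++ (D₂ ++ [v] ++ T₂) = T₁ ++ [u] ++ (D₁ ++ D₂) ++ [v] ++ T₂ := by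
      simp
    rw [h8]; exact hG
  · rw [← hB₁, getLast_aux]; exact ha
  · rw [← hB₂, head_aux]; exact hc

theorem earP {V : List ℂ} (h : Good V) : EarP V := by
  induction h with
  | tri a b c h =>
    intro L hL p q B hLB hB
    have h1 := hL.perm.length_eq
    rw [hLB] at h1
    simp only [List.length_append, List.length_cons, List.length_nil] at h1
    omega
  | rot V k h ih =>
    intro L hL
    exact ih L (hL.trans (List.IsRotated.symm ⟨k, rfl⟩))
  | cut x y E B' hE hB h1 h2 ih1 ih2 =>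
    intro L hL p q B hLB hBl
    have h1' : Good ([y] ++ B' ++ [x]) := good_rot' h1 (List.IsRotated.symm ⟨1, by simp⟩)
    have ih1' : EarP ([y] ++ B' ++ [x]) := by
      intro L hL
      exact ih1 L (hL.trans (List.IsRotated.symm ⟨1, by simp⟩))
    rcases rot_cases hL with ⟨T₁, T₂, hLT, hT⟩ | ⟨T₁, T₂, hLT, hT⟩
    · refine ear_glue (u := x) (v := y) (D := E) (T₁ := T₁) (T₂ := T₂) hE ?_ h2 ?_ ih2 ?_
      · rw [← hT]; exact hB
      · rw [← hT]; exact h1'
      · rw [← hLT]; exact hLB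
    · refine ear_glue (u := y) (v := x) (D := B') (T₁ := T₁) (T₂ := T₂) hB ?_ h1' ?_ ih1' ?_
      · rw [← hT]; exact hE
      · rw [← hT]; exact h2
      · rw [← hLT]; exact hLB

end Pool.Agent.V8H86.Ear
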