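import Pool.Agent.V8H86.EarA

/-!
MP_cbfcf7_gt, part P3 (helper86): winding angles of formally triangulated polygons.
-/

set_option autoImplicit false

namespace Pool.Agent.V8H86.Ear

open Pool.Agent.V8H80 Pool.Agent.Helper22.FC Complex

/-! ### Edges -/

theorem cyc_fst {V : List ℂ} {e : ℂ × ℂ} (he : e ∈ cyc V) : e.1 ∈ V := (List.of_mem_zip he).1

theorem cyc_snd {V : List ℂ} {e : ℂ × ℂ} (he : e ∈ cyc V) : e.2 ∈ V :=
  List.mem_rotate.1 (List.of_mem_zip he).2

theorem cyc_nd {V : List ℂ} (h : V.Nodup) : (cyc V).Nodup := by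
  have h1 : (cyc V).map Prod.fst = V := by
    unfold cyc
    exact List.map_fst_zip (by simp)
  have h2 : ((cyc V).map Prod.fst).Nodup := by rw [h1]; exact h
  exact List.Nodup.of_map _ h2

theorem edge_ne {U : List ℂ} (h3 : 2 ≤ U.length) (hnd : U.Nodup) : ∀ e ∈ cyc U, e.1 ≠ e.2 := by
  intro e he h
  obtain ⟨i, hi, rfl⟩ := List.getElem_of_mem he
  have hlen : i < U.length := by simpa [cyc] using hi
  have h1 : ((cyc U)[i]).1 = U[i] := by simp [cyc]
  have h2 : ((cyc U)[i]).2 = U[(i + 1) % U.length]'(Nat.mod_lt _ (by omega)) := by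
    simp [cyc, List.getElem_rotate]
  rw [h1, h2] at h
  have h4 := (List.Nodup.getElem_inj_iff hnd).1 h
  rcases Nat.lt_or_ge (i + 1) U.length with h5 | h5
  · rw [Nat.mod_eq_of_lt h5] at h4; omega
  · have h6 : i + 1 = U.length := by omega
    rw [h6, Nat.mod_self] at h4
    omega

theorem cyc_cut (x y : ℂ) (E B : List ℂ) : cyc ([x] ++ E ++ [y] ++ B) =
    pth1329 ((x :: E) ++ [y]) ++ pth1329 (y :: (B ++ [x])) := by
  have : [x] ++ E ++ [y] ++ B = x :: (E ++ [y] ++ B) := by simp
  rw [this, cyc_cons1329]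
  have h2 : x :: (E ++ [y] ++ B ++ [x]) = (x :: E) ++ y :: (B ++ [x]) := by simp
  rw [h2, pth_append1329]

theorem cyc_cut1 (x y : ℂ) (B : List ℂ) : cyc ([x, y] ++ B) =
    (x, y) :: pth1329 (y :: (B ++ [x])) := by
  have : [x, y] ++ B = x :: (y :: B) := by simp
  rw [this, cyc_cons1329]
  rfl

theorem cyc_cut2 (x y : ℂ) (E : List ℂ) : cyc ([x] ++ E ++ [y]) =
    pth1329 ((x :: E) ++ [y]) ++ [(y, x)] := by
  have : [x] ++ E ++ [y] = x :: (E ++ [y]) := by simp
  rw [this, cyc_cons1329]
  have h2 : x :: (E ++ [y] ++ [x]) = (x :: E) ++ y :: [x] := by simp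
  rw [h2, pth_append1329]
  rfl

theorem wnd_cut {x y z : ℂ} {E B : List ℂ} (hz : z ∉ segment ℝ x y) :
    wnd z ([x] ++ E ++ [y] ++ B) = wnd z ([x, y] ++ B) + wnd z ([x] ++ E ++ [y]) := by
  unfold wnd
  rw [cyc_cut, cyc_cut1, cyc_cut2]
  simp only [List.map_append, List.sum_append, List.map_cons, List.sum_cons, List.map_nil,
    List.sum_nil]
  have := wndFacts.swap hz
  rw [this]; ring

/-! ### Generic points -/

/-- not on a line through two of the points -/
def Gen (V : List ℂ) (x : ℂ) : Prop := ∀ u ∈ V, ∀ v ∈ V, u ≠ v → side u v x ≠ 0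

theorem Gen.mono {V W : List ℂ} {x : ℂ} (h : Gen V x) (hs : ∀ v ∈ W, v ∈ V) : Gen W x :=
  fun u hu v hv huv => h u (hs u hu) v (hs v hv) huv

theorem Gen.not_seg {V : List ℂ} {x : ℂ} (h : Gen V x) {u v : ℂ} (hu : u ∈ V) (hv : v ∈ V)
    (huv : u ≠ v) : x ∉ segment ℝ u v := fun hx => h u hu v hv huv (side_seg hx)

theorem Gen.not_curve {V : List ℂ} {x : ℂ} (h : Gen V x) (hl : 2 ≤ V.length) (hnd : V.Nodup) :
    x ∉ curve V := by
  rintro ⟨e, he, hx⟩
  exact h.not_seg (cyc_fst he) (cyc_snd he) (edge_ne hl hnd e he) hx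

theorem side_cont (a b : ℂ) : Continuous (fun x => side a b x) := by
  unfold side
  fun_prop

theorem dense_side {u v : ℂ} (huv : u ≠ v) : Dense {x | side u v x ≠ 0} := by
  rw [Metric.dense_iff]
  intro x r hr
  by_cases h : side u v x = 0
  · have hn : 0 < ‖v - u‖ := norm_pos_iff.2 (sub_ne_zero.2 huv.symm)
    obtain ⟨t, ht0, ht1⟩ : ∃ t : ℝ, 0 < t ∧ t < r / ‖v - u‖ := exists_between (by positivity)
    refine ⟨x + t * (I * (v - u)), ?_, ?_⟩
    · rw [Metric.mem_ball, dist_eq_norm]
      have : x + t * (I * (v - u)) - x = t * (I * (v - u)) := by ring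
      rw [this, norm_mul, norm_mul, Complex.norm_I, Complex.norm_real, Real.norm_eq_abs,
        abs_of_pos ht0, one_mul]
      rwa [lt_div_iff₀ hn] at ht1
    · show side u v _ ≠ 0
      have h2 : side u v (x + t * (I * (v - u))) = side u v x + t * Complex.normSq (v - u) := by
        simp only [side_eq', Complex.normSq_apply, Complex.add_im, Complex.add_re, Complex.mul_re,
          Complex.mul_im, Complex.ofReal_re, Complex.ofReal_im, Complex.sub_re, Complex.sub_im,
          Complex.I_re, Complex.I_im]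
        ring
      rw [h2, h, zero_add]
      have := Complex.normSq_pos.2 (sub_ne_zero.2 huv.symm)
      positivity
  · exact ⟨x, Metric.mem_ball_self hr, h⟩

theorem gen_dense (V : List ℂ) : Dense {x | Gen V x} := by
  have h1 : {x | Gen V x} = ⋂ p ∈ {p : ℂ × ℂ | p.1 ∈ V ∧ p.2 ∈ V ∧ p.1 ≠ p.2},
      {x | side p.1 p.2 x ≠ 0} := by
    ext x
    simp only [Set.mem_iInter, Set.mem_ofPred_eq]
    constructor
    · intro h p hp
      exact h p.1 hp.1 p.2 hp.2.1 hp.2.2
    · intro h u hu v hv huv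
      exact h (u, v) ⟨hu, hv, huv⟩
  rw [h1]
  apply dense_biInter_of_isOpen
  · intro p _
    exact (isOpen_compl_singleton (x := (0 : ℝ))).preimage (side_cont p.1 p.2)
  · apply Set.Finite.countable
    have : Set.Finite ({u | u ∈ V} ×ˢ {v | v ∈ V}) :=
      (List.finite_toSet V).prod (List.finite_toSet V)
    exact this.subset fun p hp => ⟨hp.1, hp.2.1⟩
  · intro p hp
    exact dense_side hp.2.2

/-! ### Triangles -/

theorem wnd_tri {a b c x : ℂ} : wnd x [a, b, c] = wnd x [b, c, a] := by
  have := wndFacts.rot x [a, b, c] 1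
  simpa using this.symm

theorem tri_gen {a b c x : ℂ} (hs : 0 < side a b c) (hx : Gen [a, b, c] x) :
    wnd x [a, b, c] = 0 ∨ wnd x [a, b, c] = 2 * Real.pi := by
  have hab : a ≠ b := by
    rintro rfl; simp [side_eq'] at hs
  have hbc : b ≠ c := by
    rintro rfl
    have : side a b b = 0 := by simp only [side_eq']; ring
    rw [this] at hs; exact lt_irrefl _ hs
  have hca : c ≠ a := by
    rintro rfl; simp [side_eq'] at hs
  have n1 : side b c x ≠ 0 := hx b (by simp) c (by simp) hbc
  have n2 : side c a x ≠ 0 := hx c (by simp) a (by simp) hca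
  have n3 : side a b x ≠ 0 := hx a (by simp) b (by simp) hab
  rw [wnd_tri]
  by_cases h : side b c x / side a b c < 0 ∨ side c a x / side a b c < 0 ∨
      side a b x / side a b c < 0
  · exact Or.inl (tri_out wndFacts hs.ne' h)
  · push Not at h
    right
    refine (tri_in wndFacts hs.ne' (x := x) ⟨?_, ?_, ?_⟩).1 hs
    · exact lt_of_le_of_ne h.1 (div_ne_zero n1 hs.ne').symm
    · exact lt_of_le_of_ne h.2.1 (div_ne_zero n2 hs.ne').symm
    · exact lt_of_le_of_ne h.2.2 (div_ne_zero n3 hs.ne').symm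

theorem tri_in' {a b c x : ℂ} (hs : 0 < side a b c) (hx : x ∈ tri a b c) :
    wnd x [a, b, c] = 2 * Real.pi := by
  rw [wnd_tri]
  exact (tri_in wndFacts hs.ne' hx).1 hs

theorem tri_rot {a b c x : ℂ} (h : x ∈ tri a b c) : x ∈ tri b c a := by
  obtain ⟨h1, h2, h3⟩ := h
  refine ⟨?_, ?_, ?_⟩ <;> rw [side_cyc a b c] <;> assumption

/-! ### Formally triangulated polygons -/

theorem good_nonneg {V : List ℂ} (h : Good V) : V.Nodup → ∀ x, Gen V x → 0 ≤ wnd x V := by
  induction h with
  | tri a b c h =>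
    intro _ x hx
    rcases tri_gen h hx with h0 | h0
    · rw [h0]
    · rw [h0]; positivity
  | rot V k h ih =>
    intro hnd x hx
    rw [wndFacts.rot]
    exact ih (List.nodup_rotate.1 hnd) x (hx.mono fun v hv => List.mem_rotate.2 hv)
  | cut x y E B hE hB h1 h2 ih1 ih2 =>
    intro hnd z hz
    have hxy : x ≠ y := by
      rintro rfl
      simp at hnd
    have s1 : List.Sublist ([x, y] ++ B) ([x] ++ E ++ [y] ++ B) := by
      have : [x, y] ++ B = [x] ++ ([y] ++ B) := by simp
      rw [this]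
      have h3 : [x] ++ E ++ [y] ++ B = [x] ++ (E ++ ([y] ++ B)) := by simp
      rw [h3]
      exact List.Sublist.append_left (List.sublist_append_right _ _) _
    have s2 : List.Sublist ([x] ++ E ++ [y]) ([x] ++ E ++ [y] ++ B) := List.sublist_append_left _ _
    have hns : z ∉ segment ℝ x y := hz.not_seg (by simp) (by simp) hxy
    rw [wnd_cut hns]
    have i1 := ih1 (hnd.sublist s1) z (hz.mono fun v hv => s1.subset hv)
    have i2 := ih2 (hnd.sublist s2) z (hz.mono fun v hv => s2.subset hv)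
    linarith

/-- each edge of a formally triangulated polygon is the edge of a triangle inside it -/
theorem good_tri {V : List ℂ} (h : Good V) : V.Nodup → ∀ e ∈ cyc V, ∃ d ∈ V,
    0 < side e.1 e.2 d ∧ ∀ x, Gen V x → x ∈ tri e.1 e.2 d → 2 * Real.pi ≤ wnd x V := by
  induction h with
  | tri a b c h =>
    intro _ e he
    have hc : cyc [a, b, c] = [(a, b), (b, c), (c, a)] := by simp [cyc]
    rw [hc] at he
    simp only [List.mem_cons, List.not_mem_nil, or_false] at he
    rcases he with rfl | rfl | rfl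
    · exact ⟨c, by simp, h, fun x _ hx => (tri_in' h hx).ge⟩
    · refine ⟨a, by simp, by rw [side_cyc]; exact h, fun x _ hx => ?_⟩
      exact (tri_in' h (tri_rot (tri_rot hx))).ge
    · refine ⟨b, by simp, by rw [side_cyc, side_cyc]; exact h, fun x _ hx => ?_⟩
      exact (tri_in' h (tri_rot hx)).ge
  | rot V k h ih =>
    intro hnd e he
    rw [cyc_rotate, List.mem_rotate] at he
    obtain ⟨d, hd, h1, h2⟩ := ih (List.nodup_rotate.1 hnd) e he
    refine ⟨d, List.mem_rotate.2 hd, h1, fun x hx hxt => ?_⟩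
    rw [wndFacts.rot]
    exact h2 x (hx.mono fun v hv => List.mem_rotate.2 hv) hxt
  | cut x y E B hE hB h1 h2 ih1 ih2 =>
    intro hnd e he
    have hxy : x ≠ y := by
      rintro rfl
      simp at hnd
    have s1 : List.Sublist ([x, y] ++ B) ([x] ++ E ++ [y] ++ B) := by
      have : [x, y] ++ B = [x] ++ ([y] ++ B) := by simp
      rw [this]
      have h3 : [x] ++ E ++ [y] ++ B = [x] ++ (E ++ ([y] ++ B)) := by simp
      rw [h3]
      exact List.Sublist.append_left (List.sublist_append_right _ _) _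
    have s2 : List.Sublist ([x] ++ E ++ [y]) ([x] ++ E ++ [y] ++ B) := List.sublist_append_left _ _
    rw [cyc_cut, List.mem_append] at he
    rcases he with he | he
    · have he2 : e ∈ cyc ([x] ++ E ++ [y]) := by
        rw [cyc_cut2]; exact List.mem_append_left _ he
      obtain ⟨d, hd, h3, h4⟩ := ih2 (hnd.sublist s2) e he2
      refine ⟨d, s2.subset hd, h3, fun z hz hzt => ?_⟩
      have hns : z ∉ segment ℝ x y := hz.not_seg (by simp) (by simp) hxy
      rw [wnd_cut hns]
      have i1 := good_nonneg h1 (hnd.sublist s1) z (hz.mono fun v hv => s1.subset hv)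
      have i2 := h4 z (hz.mono fun v hv => s2.subset hv) hzt
      linarith
    · have he2 : e ∈ cyc ([x, y] ++ B) := by
        rw [cyc_cut1]; exact List.mem_cons_of_mem _ he
      obtain ⟨d, hd, h3, h4⟩ := ih1 (hnd.sublist s1) e he2
      refine ⟨d, s1.subset hd, h3, fun z hz hzt => ?_⟩
      have hns : z ∉ segment ℝ x y := hz.not_seg (by simp) (by simp) hxy
      rw [wnd_cut hns]
      have i1 := good_nonneg h2 (hnd.sublist s2) z (hz.mono fun v hv => s2.subset hv)
      have i2 := h4 z (hz.mono fun v hv => s1.subset hv) hzt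
      linarith

/-- the winding angle is not constant near a point of a simple polygon -/
theorem no_const {V : List ℂ} (hV : SimpleL V) {k : ℝ} {e : ℂ × ℂ} (he : e ∈ cyc V) {y : ℂ}
    (hy : y ∈ segment ℝ e.1 e.2) {N : Set ℂ} (hN : IsOpen N) (hyN : y ∈ N)
    (h : ∀ x ∈ N, Gen V x → wnd x V = k) : False := by
  obtain ⟨a, b⟩ := e
  simp only at hy
  have hl : 2 ≤ V.length := by have := hV.1; omega
  have hab : a ≠ b := edge_ne hl hV.2.1 _ he
  -- a point of the open segment in `N`
  obtain ⟨y', hy'N, hy'⟩ : ∃ y' ∈ N, y' ∈ openSegment ℝ a b := by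
    have hcl : y ∈ closure (openSegment ℝ a b) := by
      rw [closure_openSegment]; exact hy
    obtain ⟨y', h1, h2⟩ := mem_closure_iff.1 hcl N hN hyN
    exact ⟨y', h1, h2⟩
  have hperm : (cyc V).Perm ((a, b) :: (cyc V).erase (a, b)) := List.perm_cons_erase he
  obtain ⟨δ, hδ, hj⟩ := wndFacts.jump (V := V) (y := y') hab hperm hy' (by
    intro e' he' hye'
    have h1 : e' ∈ cyc V := List.mem_of_mem_erase he'
    have h2 : e' ≠ (a, b) := by
      rintro rfl
      exact List.Nodup.not_mem_erase (cyc_nd hV.2.1) he'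
    have h3 := hV.2.2 (a, b) he e' h1 h2.symm ⟨openSegment_subset_segment _ _ _ hy', hye'⟩
    have h4 := h3.1
    simp only [Set.mem_insert_iff, Set.mem_singleton_iff] at h4
    rcases h4 with h4 | h4
    · rw [h4, left_mem_openSegment_iff] at hy'
      exact hab hy'
    · rw [h4, right_mem_openSegment_iff] at hy'
      exact hab hy')
  have hs0 : side a b y' = 0 := side_seg (openSegment_subset_segment _ _ _ hy')
  -- generic points on the two sides
  have pick : ∀ σ : ℝ, σ ≠ 0 → ∃ x ∈ N, ‖x - y'‖ < δ ∧ Gen V x ∧ 0 < σ * side a b x := by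
    intro σ hσ
    have hO : IsOpen (N ∩ Metric.ball y' δ ∩ {x | 0 < σ * side a b x}) :=
      (hN.inter Metric.isOpen_ball).inter
        (isOpen_lt continuous_const (continuous_const.mul (side_cont a b)))
    have hne : (N ∩ Metric.ball y' δ ∩ {x | 0 < σ * side a b x}).Nonempty := by
      have hO1 : IsOpen (N ∩ Metric.ball y' δ) := hN.inter Metric.isOpen_ball
      obtain ⟨r, hr, hrs⟩ := Metric.isOpen_iff.1 hO1 y' ⟨hy'N, Metric.mem_ball_self hδ⟩
      have hn : 0 < ‖b - a‖ := norm_pos_iff.2 (sub_ne_zero.2 hab.symm)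
      obtain ⟨t, ht0, ht1⟩ : ∃ t : ℝ, 0 < t ∧ t < r / (|σ| * ‖b - a‖) :=
        exists_between (by positivity)
      refine ⟨y' + (σ * t : ℝ) * (I * (b - a)), hrs ?_, ?_⟩
      · rw [Metric.mem_ball, dist_eq_norm]
        have : y' + (σ * t : ℝ) * (I * (b - a)) - y' = (σ * t : ℝ) * (I * (b - a)) := by ring
        rw [this, norm_mul, norm_mul, Complex.norm_I, Complex.norm_real, Real.norm_eq_abs,
          abs_mul, abs_of_pos ht0, one_mul]
        rw [lt_div_iff₀ (by positivity)] at ht1
        linarith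
      · show 0 < σ * side a b _
        have h2 : side a b (y' + (σ * t : ℝ) * (I * (b - a))) =
            side a b y' + (σ * t) * Complex.normSq (b - a) := by
          simp only [side_eq', Complex.normSq_apply, Complex.add_im, Complex.add_re,
            Complex.mul_re, Complex.mul_im, Complex.ofReal_re, Complex.ofReal_im, Complex.sub_re,
            Complex.sub_im, Complex.I_re, Complex.I_im]
          ring
        rw [h2, hs0, zero_add]
        have h3 := Complex.normSq_pos.2 (sub_ne_zero.2 hab.symm)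
        have h4 : 0 < σ * σ := mul_self_pos.2 hσ
        calc 0 < (σ * σ) * t * Complex.normSq (b - a) := by positivity
          _ = σ * (σ * t * Complex.normSq (b - a)) := by ring
    obtain ⟨x, hx, hg⟩ := (gen_dense V).inter_open_nonempty _ hO hne
    refine ⟨x, hx.1.1, ?_, hg, hx.2⟩
    have := hx.1.2
    rwa [Metric.mem_ball, dist_eq_norm] at this
  obtain ⟨x, hxN, hxd, hxg, hxs⟩ := pick 1 one_ne_zero
  obtain ⟨x', hxN', hxd', hxg', hxs'⟩ := pick (-1) (by norm_num)
  have := (hj x x' hxd hxd' (by linarith) (by linarith)).2.2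
  rw [h x hxN hxg, h x' hxN' hxg'] at this
  have hpi := Real.pi_pos
  linarith

end Pool.Agent.V8H86.Ear
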