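import Pool.Agent.V8H80.Stm

/-!
MP_cbfcf7_gt, part P2 (helper86): polygonal arcs in the plane, elementary operations.
-/

set_option autoImplicit false

namespace Pool.Agent.V8H86.Graph

open Pool.Agent.V8H80

open Set Metric

/-- `A` is a point or a simple polygonal arc from `p` to `q` -/
inductive PA : Set ℂ → ℂ → ℂ → Prop
  | pt (x : ℂ) : PA {x} x x
  | cons (x y z : ℂ) (A : Set ℂ) : x ≠ y → segment ℝ x y ∩ A = {y} → PA A y z →
      PA (segment ℝ x y ∪ A) x z

theorem PA.list {A : Set ℂ} {p q : ℂ} (h : PA A p q) :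
    ∃ l : List ℂ, SP (p :: l) ∧ (p :: l).getLast? = some q ∧ pset (p :: l) = A := by
  induction h with
  | pt x => exact ⟨[], trivial, rfl, rfl⟩
  | cons x y z A hxy hA h ih =>
    obtain ⟨l, h1, h2, h3⟩ := ih
    refine ⟨y :: l, ⟨hxy, ?_, h1⟩, ?_, ?_⟩
    · rw [h3]; exact hA
    · rw [List.getLast?_cons_cons]; exact h2
    · change segment ℝ x y ∪ pset (y :: l) = _
      rw [h3]

theorem PA.isArc {A : Set ℂ} {p q : ℂ} (h : PA A p q) (hpq : p ≠ q) : IsArc A p q := by
  obtain ⟨l, h1, h2, h3⟩ := h.list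
  refine ⟨l, ?_, h1, h2, h3⟩
  rintro rfl
  simp at h2
  exact hpq h2

theorem PA.left {A : Set ℂ} {p q : ℂ} (h : PA A p q) : p ∈ A := by
  cases h with
  | pt => exact mem_singleton _
  | cons y A hxy hA h => exact Or.inl (left_mem_segment ℝ _ _)

theorem PA.right {A : Set ℂ} {p q : ℂ} (h : PA A p q) : q ∈ A := by
  induction h with
  | pt => exact mem_singleton _
  | cons x y z A hxy hA h ih => exact Or.inr ih

theorem isCompact_seg (x y : ℂ) : IsCompact (segment ℝ x y) := by
  rw [segment_eq_image_lineMap]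
  exact isCompact_Icc.image (by fun_prop)

theorem PA.compact {A : Set ℂ} {p q : ℂ} (h : PA A p q) : IsCompact A := by
  induction h with
  | pt => exact isCompact_singleton
  | cons x y z A hxy hA h ih => exact (isCompact_seg x y).union ih

theorem PA.preconn {A : Set ℂ} {p q : ℂ} (h : PA A p q) : IsPreconnected A := by
  induction h with
  | pt => exact isPreconnected_singleton
  | cons x y z A hxy hA h ih =>
    exact IsPreconnected.union y (right_mem_segment ℝ x y) h.left
      (convex_segment x y).isPreconnected ih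

theorem PA.trans {A : Set ℂ} {p q : ℂ} (h : PA A p q) :
    ∀ {B : Set ℂ} {r : ℂ}, PA B q r → A ∩ B = {q} → PA (A ∪ B) p r := by
  induction h with
  | pt x =>
    intro B r hB hi
    have : ({x} : Set ℂ) ∪ B = B := by
      apply union_eq_self_of_subset_left
      rintro _ rfl
      exact hB.left
    rw [this]; exact hB
  | cons x y z A hxy hA h ih =>
    intro B r hB hi
    have hz : z ∈ A := h.right
    have hAB : A ∩ B = {z} := by
      apply Subset.antisymm
      · intro w hw
        rw [← hi]; exact ⟨Or.inr hw.1, hw.2⟩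
      · rintro _ rfl
        exact ⟨hz, hB.left⟩
    rw [union_assoc]
    refine PA.cons x y r (A ∪ B) hxy ?_ (ih hB hAB)
    apply Subset.antisymm
    · rintro w ⟨hw1, hw2 | hw2⟩
      · rw [← hA]; exact ⟨hw1, hw2⟩
      · have : w ∈ ({z} : Set ℂ) := by
          rw [← hi]; exact ⟨Or.inl hw1, hw2⟩
        rw [← hA]
        refine ⟨hw1, ?_⟩
        rw [mem_singleton_iff] at this
        rw [this]; exact hz
    · rintro _ rfl
      exact ⟨right_mem_segment ℝ _ _, Or.inl h.left⟩

theorem PA.seg (x y : ℂ) (h : x ≠ y) : PA (segment ℝ x y) x y := by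
  have h1 : segment ℝ x y ∩ {y} = {y} := by
    apply inter_eq_self_of_subset_right
    rintro _ rfl
    exact right_mem_segment ℝ _ _
  have h2 := PA.cons x y y {y} h h1 (PA.pt y)
  have h3 : segment ℝ x y ∪ {y} = segment ℝ x y := by
    apply union_eq_self_of_subset_right
    rintro _ rfl
    exact right_mem_segment ℝ _ _
  rwa [h3] at h2

theorem PA.rev {A : Set ℂ} {p q : ℂ} (h : PA A p q) : PA A q p := by
  induction h with
  | pt x => exact PA.pt x
  | cons x y z A hxy hA h ih =>
    rw [union_comm]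
    refine ih.trans (by rw [segment_symm]; exact PA.seg y x hxy.symm) ?_
    rw [inter_comm]; exact hA

/-- last point of an arc in a closed set -/
theorem PA.last {A : Set ℂ} {p q : ℂ} (h : PA A p q) (K : Set ℂ) (hK : IsClosed K) :
    (K ∩ A).Nonempty → ∃ (h : ℂ) (A' : Set ℂ), h ∈ K ∧ A' ⊆ A ∧ PA A' h q ∧ A' ∩ K = {h} := by
  induction h with
  | pt x =>
    rintro ⟨w, hw, hw'⟩
    rw [mem_singleton_iff] at hw'
    subst hw'
    refine ⟨w, {w}, hw, Subset.rfl, PA.pt w, ?_⟩
    apply inter_eq_self_of_subset_left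
    rintro _ rfl; exact hw
  | cons x y z A hxy hA h ih =>
    intro hne
    by_cases hKA : (K ∩ A).Nonempty
    · obtain ⟨h', A', h1, h2, h3, h4⟩ := ih hKA
      exact ⟨h', A', h1, h2.trans subset_union_right, h3, h4⟩
    · rw [not_nonempty_iff_eq_empty] at hKA
      have hne' : (K ∩ segment ℝ x y).Nonempty := by
        obtain ⟨w, hw, hw' | hw'⟩ := hne
        · exact ⟨w, hw, hw'⟩
        · exact absurd (show w ∈ K ∩ A from ⟨hw, hw'⟩) (by rw [hKA]; exact fun h => h)
      have hcp : IsCompact (K ∩ segment ℝ x y) := (isCompact_seg x y).inter_left hK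
      obtain ⟨w, hw, hmin⟩ := hcp.exists_isMinOn hne'
        (f := fun w => dist w y) (by fun_prop)
      have hyK : y ∉ K := by
        intro hy
        have : y ∈ K ∩ A := ⟨hy, h.left⟩
        rw [hKA] at this; exact this
      have hwy : w ≠ y := by
        rintro rfl; exact hyK hw.1
      have hsub : segment ℝ w y ⊆ segment ℝ x y :=
        (convex_segment x y).segment_subset hw.2 (right_mem_segment ℝ _ _)
      refine ⟨w, segment ℝ w y ∪ A, hw.1, union_subset_union_left _ hsub, ?_, ?_⟩
      · refine PA.cons w y z A hwy ?_ h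
        apply Subset.antisymm
        · intro u hu
          rw [← hA]; exact ⟨hsub hu.1, hu.2⟩
        · rintro _ rfl
          exact ⟨right_mem_segment ℝ _ _, h.left⟩
      · apply Subset.antisymm
        · rintro u ⟨hu1 | hu1, hu2⟩
          · have hm : dist w y ≤ dist u y := hmin (show u ∈ K ∩ segment ℝ x y from ⟨hu2, hsub hu1⟩)
            rw [segment_eq_image_lineMap] at hu1
            obtain ⟨t, ht, rfl⟩ := hu1
            have hd : dist (AffineMap.lineMap w y t : ℂ) y = (1 - t) * dist w y := by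
              rw [dist_lineMap_right, Real.norm_eq_abs, abs_of_nonneg (by linarith [ht.2])]
            rw [hd] at hm
            have hpos : 0 < dist w y := dist_pos.2 hwy
            have ht0 : t = 0 := by
              have : t * dist w y ≤ 0 := by nlinarith
              have h5 := ht.1
              by_contra hne
              have : 0 < t := lt_of_le_of_ne h5 (Ne.symm hne)
              nlinarith [mul_pos this hpos]
            rw [ht0]; simp
          · exact absurd (show u ∈ K ∩ A from ⟨hu2, hu1⟩) (by rw [hKA]; exact fun h => h)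
        · rintro _ rfl
          exact ⟨Or.inl (left_mem_segment ℝ _ _), hw.1⟩

/-- adding a point: if `x` is joined to a point of an arc by a segment -/
theorem PA.extend {A : Set ℂ} {y z : ℂ} (h : PA A y z) (x : ℂ) :
    ∃ A' : Set ℂ, A' ⊆ segment ℝ x y ∪ A ∧ PA A' x z := by
  -- first point of `A` on the segment from `x` to `y`
  have hcp : IsCompact (A ∩ segment ℝ x y) := (isCompact_seg x y).inter_left h.compact.isClosed
  obtain ⟨w, hw, hmin⟩ := hcp.exists_isMinOn ⟨y, h.left, right_mem_segment ℝ _ _⟩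
    (f := fun w => dist x w) (by fun_prop)
  obtain ⟨w', A', h1, h2, h3, h4⟩ := h.last {w} isClosed_singleton ⟨w, rfl, hw.1⟩
  rw [mem_singleton_iff] at h1
  subst h1
  by_cases hxw : x = w'
  · subst hxw
    exact ⟨A', h2.trans subset_union_right, h3⟩
  · have hsub : segment ℝ x w' ⊆ segment ℝ x y :=
      (convex_segment x y).segment_subset (left_mem_segment ℝ _ _) hw.2
    refine ⟨segment ℝ x w' ∪ A', union_subset_union hsub h2, PA.cons x w' z A' hxw ?_ h3⟩
    apply Subset.antisymm
    · rintro u ⟨hu1, hu2⟩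
      have hm : dist x w' ≤ dist x u := hmin (show u ∈ A ∩ segment ℝ x y from ⟨h2 hu2, hsub hu1⟩)
      rw [segment_eq_image_lineMap] at hu1
      obtain ⟨t, ht, rfl⟩ := hu1
      have hd : dist x (AffineMap.lineMap x w' t : ℂ) = t * dist x w' := by
        rw [dist_left_lineMap, Real.norm_eq_abs, abs_of_nonneg ht.1]
      rw [hd] at hm
      have hpos : 0 < dist x w' := dist_pos.2 hxw
      have ht1 : t = 1 := by
        by_contra hne
        have h5 : t < 1 := lt_of_le_of_ne ht.2 hne
        nlinarith [mul_pos (sub_pos.2 h5) hpos]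
      rw [ht1]; simp
    · rintro _ rfl
      exact ⟨right_mem_segment ℝ _ _, h3.left⟩

/-- two points of an open preconnected set are joined by an arc inside it -/
theorem exists_PA {U : Set ℂ} (hU : IsOpen U) (hc : IsPreconnected U) {x z : ℂ} (hx : x ∈ U)
    (hz : z ∈ U) : ∃ A : Set ℂ, A ⊆ U ∧ PA A x z := by
  set S : Set ℂ := {x | x ∈ U ∧ ∃ A : Set ℂ, A ⊆ U ∧ PA A x z} with hS
  have key : ∀ c r, ball c r ⊆ U → ∀ x ∈ ball c r, ∀ y ∈ ball c r, y ∈ S → x ∈ S := by
    intro c r hb x hx y hy hyS
    obtain ⟨_, A, hAU, hA⟩ := hyS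
    obtain ⟨A', hA', h2⟩ := hA.extend x
    refine ⟨hb hx, A', hA'.trans (union_subset ?_ hAU), h2⟩
    exact ((convex_ball c r).segment_subset hx hy).trans hb
  have hSo : IsOpen S := by
    rw [Metric.isOpen_iff]
    intro y hy
    obtain ⟨r, hr, hb⟩ := Metric.isOpen_iff.1 hU y hy.1
    exact ⟨r, hr, fun x hx => key y r hb x hx y (mem_ball_self hr) hy⟩
  have hsub : U ⊆ S := by
    refine hc.subset_of_closure_inter_subset hSo ⟨z, hz, hz, {z}, ?_, PA.pt z⟩ ?_
    · rintro _ rfl; exact hz
    · rintro x ⟨hx1, hx2⟩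
      obtain ⟨r, hr, hb⟩ := Metric.isOpen_iff.1 hU x hx2
      obtain ⟨y, hy1, hy2⟩ := Metric.mem_closure_iff.1 hx1 r hr
      exact key x r hb x (mem_ball_self hr) y (by rw [mem_ball, dist_comm]; exact hy2) hy1
  obtain ⟨_, A, h1, h2⟩ := hsub hx
  exact ⟨A, h1, h2⟩

end Pool.Agent.V8H86.Graph
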